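import Pool.Agent.Y113.P.SD

/-!
# Galochkin's condition for primitives
-/

set_option autoImplicit false

open PowerSeries Finset Finset.HasAntidiagonal

namespace Pool.Agent.Y119.ML

open Pool.Agent.Y113

/-- the derivation condition for one function, with respect to a family -/
def DerP {ι : Type} [Fintype ι] (q : ℕ) (C : ℝ) (T : Polynomial ℤ) (y : ι → ℚ⟦X⟧) (f : ℚ⟦X⟧) : Prop :=
  ∀ k : ℕ, ∃ g : ℕ, 0 < g ∧ (g : ℝ) ≤ C ^ (k + 1) ∧ ∀ s ≤ k, ∃ G : ι → Polynomial ℤ,
    (∀ j, Bd (q * s) (C ^ (k + 1)) (G j)) ∧ (g : ℚ⟦X⟧) * (ps T ^ s * hd s f) = ∑ j, ps (G j) * y j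

section

variable {ι : Type} [Fintype ι] {q : ℕ} {C : ℝ} {T : Polynomial ℤ} {y : ι → ℚ⟦X⟧}

lemma DerP.mono {f : ℚ⟦X⟧} (h : DerP q C T y f) {C' : ℝ} (h0 : 0 ≤ C) (hC : C ≤ C') : DerP q C' T y f := by
  intro k
  obtain ⟨g, hg0, hg, hg'⟩ := h k
  refine ⟨g, hg0, hg.trans (pow_le_pow_left₀ h0 hC _), fun s hs => ?_⟩
  obtain ⟨G, h1, h2⟩ := hg' s hs
  exact ⟨G, fun j => (h1 j).mono le_rfl (pow_le_pow_left₀ h0 hC _), h2⟩

/-- a common multiple -/
lemma common [DecidableEq ι] (hC : 1 ≤ C) (N : ℕ) (hN : Fintype.card ι ≤ N) (s : Finset ι)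
    (hs : ∀ i ∈ s, DerP q C T y (y i)) (k : ℕ) :
    ∃ g : ℕ, 0 < g ∧ (g : ℝ) ≤ (C ^ N) ^ (k + 1) ∧ ∀ m ≤ k, ∃ G : ι → ι → Polynomial ℤ,
      ∀ i ∈ s, (∀ j, Bd (q * m) ((C ^ (N + 1)) ^ (k + 1)) (G i j)) ∧
        (g : ℚ⟦X⟧) * (ps T ^ m * hd m (y i)) = ∑ j, ps (G i j) * y j := by
  have hC0 : (0 : ℝ) < C := zero_lt_one.trans_le hC
  have h : ∀ i : ι, ∃ g : ℕ, 0 < g ∧ (g : ℝ) ≤ C ^ (k + 1) ∧ (i ∈ s → ∀ m ≤ k, ∃ G : ι → Polynomial ℤ,
      (∀ j, Bd (q * m) (C ^ (k + 1)) (G j)) ∧ (g : ℚ⟦X⟧) * (ps T ^ m * hd m (y i)) = ∑ j, ps (G j) * y j) := by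
    intro i
    by_cases hi : i ∈ s
    · obtain ⟨g, h1, h2, h3⟩ := hs i hi k
      exact ⟨g, h1, h2, fun _ => h3⟩
    · exact ⟨1, one_pos, by simpa using one_le_pow₀ hC, fun h => absurd h hi⟩
  choose g hg0 hg1 hg2 using h
  have hsub : ∀ t : Finset ι, ((∏ i ∈ t, g i : ℕ) : ℝ) ≤ (C ^ N) ^ (k + 1) := by
    intro t
    push_cast
    calc ∏ i ∈ t, (g i : ℝ) ≤ ∏ i ∈ t, C ^ (k + 1) := prod_le_prod (fun _ _ => by positivity) (fun i _ => hg1 i)
      _ = (C ^ (k + 1)) ^ t.card := by rw [prod_const]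
      _ ≤ (C ^ (k + 1)) ^ N := pow_le_pow_right₀ (one_le_pow₀ hC) ((card_le_univ t).trans hN)
      _ = _ := by rw [← pow_mul, ← pow_mul, mul_comm]
  refine ⟨∏ i ∈ s, g i, prod_pos fun i _ => hg0 i, hsub s, fun m hm => ?_⟩
  have h' : ∀ i : ι, ∃ G : ι → Polynomial ℤ, i ∈ s → (∀ j, Bd (q * m) (C ^ (k + 1)) (G j)) ∧
      (g i : ℚ⟦X⟧) * (ps T ^ m * hd m (y i)) = ∑ j, ps (G j) * y j := by
    intro i
    by_cases hi : i ∈ s
    · obtain ⟨G, hG⟩ := hg2 i hi m hm
      exact ⟨G, fun _ => hG⟩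
    · exact ⟨0, fun h => absurd h hi⟩
  choose G hG using h'
  refine ⟨fun i j => Polynomial.C ((∏ i' ∈ s.erase i, g i' : ℕ) : ℤ) * G i j, fun i hi => ⟨fun j => ?_, ?_⟩⟩
  · refine ((hG i hi).1 j).C_mul (c := ((∏ i' ∈ s.erase i, g i' : ℕ) : ℤ)) (B := (C ^ N) ^ (k + 1)) ?_ |>.mono le_rfl ?_
    · rw [Int.cast_natCast, abs_of_nonneg (Nat.cast_nonneg _)]
      exact hsub _
    · rw [← mul_pow, ← pow_succ]
  · rw [← mul_prod_erase s g hi]
    have h2 := (hG i hi).2
    calc ((g i * ∏ x ∈ s.erase i, g x : ℕ) : ℚ⟦X⟧) * (ps T ^ m * hd m (y i))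
        = ((∏ x ∈ s.erase i, g x : ℕ) : ℚ⟦X⟧) * ((g i : ℚ⟦X⟧) * (ps T ^ m * hd m (y i))) := by push_cast; ring
      _ = ((∏ x ∈ s.erase i, g x : ℕ) : ℚ⟦X⟧) * ∑ j, ps (G i j) * y j := by rw [h2]
      _ = _ := by
        rw [mul_sum]
        refine sum_congr rfl fun j _ => ?_
        rw [ps_mul, ps_C]
        push_cast
        ring

lemma Bd.hasse {n : ℕ} {A : ℝ} {P : Polynomial ℤ} (h : Bd n A P) (a : ℕ) :
    Bd n (2 ^ n * A) (Polynomial.hasseDeriv a P) := by
  refine ⟨(Polynomial.natDegree_hasseDeriv_le P a).trans ((Nat.sub_le _ _).trans h.1), fun l => ?_⟩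
  rw [Polynomial.hasseDeriv_coeff]
  push_cast
  rw [abs_mul]
  by_cases hl : l + a ≤ n
  · refine mul_le_mul ?_ (h.2 _) (abs_nonneg _) (by positivity)
    rw [abs_of_nonneg (by positivity)]
    calc (((l + a).choose a : ℕ) : ℝ) ≤ ((2 ^ (l + a) : ℕ) : ℝ) := by exact_mod_cast Nat.choose_le_two_pow _ _
      _ = 2 ^ (l + a) := by push_cast; rfl
      _ ≤ 2 ^ n := pow_le_pow_right₀ (by norm_num) hl
  · rw [Polynomial.coeff_eq_zero_of_natDegree_lt (lt_of_le_of_lt h.1 (by omega))]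
    have := h.nonneg
    simp only [Int.cast_zero, abs_zero, mul_zero]
    positivity

lemma hd_ps (a : ℕ) (P : Polynomial ℤ) : hd a (ps P) = ps (Polynomial.hasseDeriv a P) := by
  unfold ps
  rw [hd_coe]
  congr 1
  ext l
  rw [Polynomial.hasseDeriv_coeff, Polynomial.coeff_map, Polynomial.coeff_map, Polynomial.hasseDeriv_coeff]
  simp

lemma hd_deriv (k : ℕ) (f : ℚ⟦X⟧) : hd k (d⁄dX ℚ f) = ((k : ℚ⟦X⟧) + 1) * hd (k + 1) f := by
  ext m
  have h1 : ((k : ℚ⟦X⟧) + 1) = PowerSeries.C ((k : ℚ) + 1) := by simp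
  rw [h1, coeff_C_mul, coeff_hd, coeff_hd, coeff_derivative]
  have h2 := Nat.add_one_mul_choose_eq (m + k) k
  have h3 : ((m : ℚ) + k + 1) * ((m + k).choose k : ℚ) = ((m + k + 1).choose (k + 1) : ℚ) * (k + 1) := by
    exact_mod_cast h2
  rw [show m + (k + 1) = m + k + 1 by ring]
  push_cast
  linear_combination (coeff (m + k + 1) f) * h3

lemma ps_sub' (P Q : Polynomial ℤ) : ps (P - Q) = ps P - ps Q := by simp [ps]

end

/-- Galochkin's condition for a primitive -/
theorem der_int (q N : ℕ) : ∃ E : ℕ, ∀ (ι : Type) [Fintype ι] [DecidableEq ι] (C : ℝ) (T : Polynomial ℤ)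
    (y : ι → ℚ⟦X⟧) (s : Finset ι) (i₀ : ι) (R : ι → Polynomial ℤ), Fintype.card ι ≤ N → 1 ≤ C → Bd q C T →
    (∀ i ∈ s, Bd q C (R i)) → (∀ i ∈ s, DerP q C T y (y i)) →
    ps T * d⁄dX ℚ (y i₀) = ∑ i ∈ s, ps (R i) * y i → DerP q ((2 * C) ^ E) T y (y i₀) := by
  classical
  -- bounds, with `B = 2 C`
  refine ⟨8 + (N + N + 1 + (q + 1) + (q + (q + 1)) + (q + 1) + (q + 1) + (N + 1)) + (1 + (q + (q + 1) + (q + 1) + (q + 1) )) + N, ?_⟩
  intro ι _ _ C T y s i₀ R hcard hC hT hR hs hode k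
  have hC0 : (0 : ℝ) < C := zero_lt_one.trans_le hC
  set B : ℝ := 2 * C with hB
  have hB2 : 2 ≤ B := by linarith
  have hB1 : 1 ≤ B := by linarith
  have hB0 : 0 < B := by linarith
  have hCB : C ≤ B := by linarith
  have hqB : ((q : ℝ) + 1) ≤ B ^ q := (succ_le_two_pow q).trans (pow_le_pow_left₀ (by norm_num) hB2 _)
  have hNB : (N : ℝ) ≤ B ^ N :=
    ((le_add_of_nonneg_right zero_le_one).trans (succ_le_two_pow N)).trans (pow_le_pow_left₀ (by norm_num) hB2 _)
  have h2q : (2 : ℝ) ^ q ≤ B ^ q := pow_le_pow_left₀ (by norm_num) hB2 _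
  obtain ⟨g, hg0, hg1, hg2⟩ := common (q := q) hC N hcard s hs k
  choose! G hG using hg2
  -- the polynomials for the right hand side
  set Φ : ℕ → ι → Polynomial ℤ := fun m j => ∑ i ∈ s, ∑ p ∈ antidiagonal m,
    Polynomial.hasseDeriv p.1 (R i) * T ^ p.1 * G p.2 i j with hΦ
  set Q : ℝ := B ^ (k + 1) with hQ
  have hQ1 : 1 ≤ Q := one_le_pow₀ hB1
  have hQ0 : 0 < Q := by linarith
  have hBQ : ∀ e : ℕ, B ^ e ≤ Q ^ e := fun e => by
    refine pow_le_pow_left₀ hB0.le ?_ _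
    exact le_self_pow₀ hB1 (by omega)
  have hBk : ∀ e a : ℕ, a ≤ k → (B ^ e) ^ a ≤ Q ^ e := fun e a ha => by
    rw [← pow_mul, mul_comm, pow_mul]
    exact pow_le_pow_left₀ (by positivity) (pow_le_pow_right₀ hB1 (by omega)) _
  set A : ℝ := Q ^ (N + N + 1 + (q + 1) + (q + (q + 1)) + (q + 1) + (q + 1) + (N + 1)) with hA
  have hA0 : 0 < A := by positivity
  have hΦb : ∀ m ≤ k, ∀ j, Bd (q * (m + 1)) A (Φ m j) := by
    intro m hm j
    have h1 : ∀ i ∈ s, ∀ p ∈ antidiagonal m, Bd (q * (m + 1)) (Q ^ ((q + 1) + (q + (q + 1)) + (q + 1) + (q + 1) + (N + 1)))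
        (Polynomial.hasseDeriv p.1 (R i) * T ^ p.1 * G p.2 i j) := by
      intro i hi p hp
      rw [Finset.HasAntidiagonal.mem_antidiagonal] at hp
      have a1 := Bd.hasse (hR i hi) p.1
      have a2 := hT.pow p.1
      have a3 := (hG p.2 (by omega) i hi).1 j
      refine ((a1.mul a2).mul a3).mono (le_of_eq ?_) ?_
      · rw [← hp]; ring
      · have b1 : (((q + q * p.1 : ℕ) : ℝ) + 1) ≤ Q ^ (q + 1) := by
          have c1 : (((q + q * p.1 : ℕ) : ℝ) + 1) ≤ 2 ^ (q + q * p.1) := succ_le_two_pow _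
          refine c1.trans ?_
          rw [hQ, ← pow_mul]
          refine (pow_le_pow_left₀ (by norm_num) hB2 _).trans (pow_le_pow_right₀ hB1 ?_)
          have : p.1 ≤ k := by omega
          nlinarith
        have b2 : (q : ℝ) + 1 ≤ Q ^ (q + 1) := by
          refine hqB.trans ((pow_le_pow_right₀ hB1 (by omega)).trans (hBQ (q + 1)))
        have b3 : (2 : ℝ) ^ q * C ≤ Q ^ (q + 1) := by
          refine le_trans ?_ (hBQ (q + 1))
          rw [pow_succ]
          exact mul_le_mul h2q hCB hC0.le (by positivity)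
        have b4 : (((q : ℝ) + 1) * C) ^ p.1 ≤ Q ^ (q + 1) := by
          refine le_trans ?_ (hBk (q + 1) p.1 (by omega))
          refine pow_le_pow_left₀ (by positivity) ?_ _
          rw [pow_succ]
          exact mul_le_mul hqB hCB hC0.le (by positivity)
        have b5 : (C ^ (N + 1)) ^ (k + 1) ≤ Q ^ (N + 1) := by
          rw [hQ, ← pow_mul, ← pow_mul, mul_comm]
          exact pow_le_pow_left₀ hC0.le hCB _
        calc (((q + q * p.1 : ℕ) : ℝ) + 1) * (((q : ℝ) + 1) * (2 ^ q * C * (((q : ℝ) + 1) * C) ^ p.1) *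
              (C ^ (N + 1)) ^ (k + 1))
            ≤ Q ^ (q + 1) * (Q ^ (q + 1) * (Q ^ (q + 1) * Q ^ (q + 1)) * Q ^ (N + 1)) := by
              gcongr
          _ = Q ^ ((q + 1) + (q + 1) + (q + 1) + (q + 1) + (N + 1)) := by ring
          _ ≤ _ := pow_le_pow_right₀ hQ1 (by omega)
    have h2 : ∀ i ∈ s, Bd (q * (m + 1)) ((m + 1 : ℕ) * Q ^ ((q + 1) + (q + (q + 1)) + (q + 1) + (q + 1) + (N + 1)))
        (∑ p ∈ antidiagonal m, Polynomial.hasseDeriv p.1 (R i) * T ^ p.1 * G p.2 i j) := by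
      intro i hi
      have := Bd.sum _ (h1 i hi)
      rwa [Finset.Nat.card_antidiagonal] at this
    have h3 := Bd.sum _ h2
    refine h3.mono le_rfl ?_
    have c1 : (s.card : ℝ) ≤ Q ^ N := by
      have : (s.card : ℝ) ≤ N := by exact_mod_cast (card_le_univ s).trans hcard
      exact (this.trans hNB).trans (hBQ N)
    have c2 : ((m + 1 : ℕ) : ℝ) ≤ Q ^ (N + 1) := by
      push_cast
      refine (succ_le_two_pow m).trans ?_
      refine ((pow_le_pow_left₀ (by norm_num) hB2 _).trans (pow_le_pow_right₀ hB1 (by omega : m ≤ k + 1))).trans ?_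
      exact le_self_pow₀ hQ1 (by omega)
    calc (s.card : ℝ) * (((m + 1 : ℕ) : ℝ) * Q ^ ((q + 1) + (q + (q + 1)) + (q + 1) + (q + 1) + (N + 1)))
        ≤ Q ^ N * (Q ^ (N + 1) * Q ^ ((q + 1) + (q + (q + 1)) + (q + 1) + (q + 1) + (N + 1))) := by gcongr
      _ = A := by rw [hA]; ring
  have hΦe : ∀ m ≤ k, (g : ℚ⟦X⟧) * (ps T ^ m * hd m (ps T * d⁄dX ℚ (y i₀))) = ∑ j, ps (Φ m j) * y j := by
    intro m hm
    rw [hode, hd_sum, mul_sum, mul_sum]
    have h1 : ∀ i ∈ s, (g : ℚ⟦X⟧) * (ps T ^ m * hd m (ps (R i) * y i)) =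
        ∑ j, ∑ p ∈ antidiagonal m, ps (Polynomial.hasseDeriv p.1 (R i) * T ^ p.1 * G p.2 i j) * y j := by
      intro i hi
      rw [hd_mul, mul_sum, mul_sum, sum_comm]
      refine sum_congr rfl fun p hp => ?_
      rw [Finset.HasAntidiagonal.mem_antidiagonal] at hp
      have h2 := (hG p.2 (by omega) i hi).2
      calc (g : ℚ⟦X⟧) * (ps T ^ m * (hd p.1 (ps (R i)) * hd p.2 (y i)))
          = (hd p.1 (ps (R i)) * ps T ^ p.1) * ((g : ℚ⟦X⟧) * (ps T ^ p.2 * hd p.2 (y i))) := by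
            rw [← hp, pow_add]; ring
        _ = _ := by
          rw [h2, mul_sum]
          refine sum_congr rfl fun j _ => ?_
          rw [hd_ps, ps_mul, ps_mul, ps_pow]
          ring
    rw [sum_congr rfl h1, sum_comm]
    refine sum_congr rfl fun j _ => ?_
    simp only [hΦ, ps_sum, sum_mul]
  -- the recursion
  set K : ℝ := B ^ (q + (q + 1) + (q + 1) + (q + 1)) with hK
  have hK1 : 1 ≤ K := one_le_pow₀ hB1
  have hH : ∀ a, 1 ≤ a → Bd (q * a) (B ^ (q + (q + 1)) * (B ^ (q + 1)) ^ (a - 1))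
      (Polynomial.hasseDeriv a T * T ^ (a - 1)) := by
    intro a ha
    have a1 := Bd.hasse hT a
    have a2 := hT.pow (a - 1)
    refine (a1.mul a2).mono (le_of_eq ?_) ?_
    · obtain ⟨a, rfl⟩ : ∃ a', a = a' + 1 := ⟨a - 1, by omega⟩
      simp only [Nat.add_sub_cancel]; ring
    · have b3 : (2 : ℝ) ^ q * C ≤ B ^ (q + 1) := by
        rw [pow_succ]
        exact mul_le_mul h2q hCB hC0.le (by positivity)
      have b4 : (((q : ℝ) + 1) * C) ^ (a - 1) ≤ (B ^ (q + 1)) ^ (a - 1) := by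
        refine pow_le_pow_left₀ (by positivity) ?_ _
        rw [pow_succ]
        exact mul_le_mul hqB hCB hC0.le (by positivity)
      calc ((q : ℝ) + 1) * (2 ^ q * C * (((q : ℝ) + 1) * C) ^ (a - 1))
          ≤ B ^ q * (B ^ (q + 1) * (B ^ (q + 1)) ^ (a - 1)) := by gcongr
        _ = _ := by rw [← mul_assoc, ← pow_add]
  have main : ∀ m, m ≤ k → ∃ Ψ : ι → Polynomial ℤ, (∀ j, Bd (q * (m + 1)) (A * (2 * K) ^ m) (Ψ j)) ∧
      (g : ℚ⟦X⟧) * (ps T ^ (m + 1) * hd m (d⁄dX ℚ (y i₀))) = ∑ j, ps (Ψ j) * y j := by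
    intro m
    induction m using Nat.strong_induction_on with
    | _ m ih =>
      intro hm
      have ih' : ∀ m' : ℕ, ∃ Ψ : ι → Polynomial ℤ, m' < m → (∀ j, Bd (q * (m' + 1)) (A * (2 * K) ^ m') (Ψ j)) ∧
          (g : ℚ⟦X⟧) * (ps T ^ (m' + 1) * hd m' (d⁄dX ℚ (y i₀))) = ∑ j, ps (Ψ j) * y j := by
        intro m'
        by_cases h : m' < m
        · obtain ⟨Ψ, hΨ⟩ := ih m' h (by omega)
          exact ⟨Ψ, fun _ => hΨ⟩
        · exact ⟨0, fun h' => absurd h' h⟩
      choose Ψ hΨ using ih'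
      refine ⟨fun j => Φ m j - ∑ a ∈ range m, (Polynomial.hasseDeriv (a + 1) T * T ^ a) * Ψ (m - 1 - a) j,
        fun j => ?_, ?_⟩
      · have h1 : ∀ a ∈ range m, Bd (q * (m + 1)) (K ^ (a + 1) * (A * (2 * K) ^ (m - 1 - a)))
            ((Polynomial.hasseDeriv (a + 1) T * T ^ a) * Ψ (m - 1 - a) j) := by
          intro a ha
          rw [mem_range] at ha
          have a1 := hH (a + 1) (by omega)
          rw [Nat.add_sub_cancel] at a1
          have a2 := (hΨ (m - 1 - a) (by omega)).1 j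
          refine (a1.mul a2).mono (le_of_eq ?_) ?_
          · obtain ⟨b, hb⟩ : ∃ b, m = a + 1 + b := ⟨m - (a + 1), by omega⟩
            subst hb
            rw [show a + 1 + b - 1 - a = b by omega]
            ring
          · rw [← mul_assoc]
            refine mul_le_mul_of_nonneg_right ?_ (by positivity)
            have c1 : (((q * (a + 1) : ℕ) : ℝ) + 1) ≤ (B ^ q) ^ (a + 1) := by
              refine (succ_le_two_pow _).trans ?_
              rw [← pow_mul]
              exact pow_le_pow_left₀ (by norm_num) hB2 _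
            calc (((q * (a + 1) : ℕ) : ℝ) + 1) * (B ^ (q + (q + 1)) * (B ^ (q + 1)) ^ a)
                ≤ (B ^ q) ^ (a + 1) * ((B ^ (q + (q + 1))) ^ (a + 1) * (B ^ (q + 1)) ^ (a + 1)) := by
                  gcongr
                  · exact le_self_pow₀ (one_le_pow₀ hB1) (by omega)
                  · exact one_le_pow₀ hB1
                  · omega
              _ = (B ^ (q + (q + (q + 1)) + (q + 1))) ^ (a + 1) := by
                rw [← mul_pow, ← mul_pow, ← pow_add, ← pow_add]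
                congr 2
                ring
              _ ≤ _ := by
                refine pow_le_pow_left₀ (by positivity) ?_ _
                exact pow_le_pow_right₀ hB1 (by omega)
        have h2 : ∀ t : ℕ, t ≤ m → Bd (q * (m + 1)) (A * (∑ a ∈ range t, K ^ (a + 1) * (2 * K) ^ (m - 1 - a)))
            (∑ a ∈ range t, (Polynomial.hasseDeriv (a + 1) T * T ^ a) * Ψ (m - 1 - a) j) := by
          intro t ht
          refine ⟨Polynomial.natDegree_sum_le_of_forall_le _ _ fun i hi => (h1 i (mem_range.2 (by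
            have := mem_range.1 hi; omega))).1, fun l => ?_⟩
          rw [Polynomial.finsetSum_coeff]
          push_cast
          refine (Finset.abs_sum_le_sum_abs _ _).trans ?_
          rw [mul_sum]
          refine sum_le_sum fun i hi => ?_
          refine ((h1 i (mem_range.2 (by have := mem_range.1 hi; omega))).2 l).trans (le_of_eq ?_)
          ring
        have h3 := h2 m le_rfl
        have h4 : ∑ a ∈ range m, K ^ (a + 1) * (2 * K) ^ (m - 1 - a) = K ^ m * (2 ^ m - 1) := by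
          have h5 : ∀ a ∈ range m, K ^ (a + 1) * (2 * K) ^ (m - 1 - a) = K ^ m * 2 ^ (m - 1 - a) := by
            intro a ha
            rw [mem_range] at ha
            rw [mul_pow, show K ^ m = K ^ (a + 1) * K ^ (m - 1 - a) by
              rw [← pow_add]; congr 1; omega]
            ring
          rw [sum_congr rfl h5, ← mul_sum, sum_range_reflect (fun a => (2 : ℝ) ^ a) m]
          congr 1
          have := geom_sum_eq (by norm_num : (2 : ℝ) ≠ 1) m
          rw [this]; norm_num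
        rw [h4] at h3
        refine ⟨(Polynomial.natDegree_sub_le_of_le (hΦb m hm j).1 h3.1).trans (max_le le_rfl le_rfl), fun l => ?_⟩
        beta_reduce
        rw [Polynomial.coeff_sub]
        push_cast
        refine (abs_sub _ _).trans ?_
        have h6 : (1 : ℝ) ≤ K ^ m := one_le_pow₀ hK1
        calc |(((Φ m j).coeff l : ℤ) : ℝ)| + |(((∑ a ∈ range m, (Polynomial.hasseDeriv (a + 1) T * T ^ a) *
              Ψ (m - 1 - a) j).coeff l : ℤ) : ℝ)| ≤ A + A * (K ^ m * (2 ^ m - 1)) :=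
              add_le_add ((hΦb m hm j).2 l) (h3.2 l)
          _ ≤ A * K ^ m + A * (K ^ m * (2 ^ m - 1)) := by
              have := mul_le_mul_of_nonneg_left h6 hA0.le
              linarith
          _ = A * (2 * K) ^ m := by rw [mul_pow]; ring
      · have h1 := hΦe m hm
        rw [hd_mul, Finset.Nat.antidiagonal_eq_map', ] at h1
        have h2 : ∑ p ∈ antidiagonal m, hd p.1 (ps T) * hd p.2 (d⁄dX ℚ (y i₀)) =
            ps T * hd m (d⁄dX ℚ (y i₀)) + ∑ a ∈ range m, hd (a + 1) (ps T) * hd (m - 1 - a) (d⁄dX ℚ (y i₀)) := by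
          rw [Finset.Nat.sum_antidiagonal_eq_sum_range_succ (fun a b => hd a (ps T) * hd b (d⁄dX ℚ (y i₀))),
            sum_range_succ', add_comm, Nat.sub_zero, hd_zero]
          congr 1
          refine sum_congr rfl fun a ha => ?_
          rw [show m - (a + 1) = m - 1 - a by omega]
        rw [← Finset.Nat.antidiagonal_eq_map', h2] at h1
        have h3 : ∑ j, ps (Φ m j - ∑ a ∈ range m, (Polynomial.hasseDeriv (a + 1) T * T ^ a) * Ψ (m - 1 - a) j) * y j =
            (∑ j, ps (Φ m j) * y j) - ∑ a ∈ range m, ps (Polynomial.hasseDeriv (a + 1) T * T ^ a) *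
              ∑ j, ps (Ψ (m - 1 - a) j) * y j := by
          simp only [ps_sub', ps_sum, ps_mul, sub_mul, sum_sub_distrib, sum_mul, mul_sum]
          congr 1
          rw [sum_comm]
          refine sum_congr rfl fun a _ => sum_congr rfl fun j _ => by ring
        rw [h3, ← h1]
        have h4 : ∀ a ∈ range m, ps (Polynomial.hasseDeriv (a + 1) T * T ^ a) * ∑ j, ps (Ψ (m - 1 - a) j) * y j =
            (g : ℚ⟦X⟧) * (ps T ^ m * (hd (a + 1) (ps T) * hd (m - 1 - a) (d⁄dX ℚ (y i₀)))) := by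
          intro a ha
          rw [mem_range] at ha
          rw [← (hΨ (m - 1 - a) (by omega)).2, ps_mul, ps_pow, ← hd_ps,
            show ps T ^ m = ps T ^ a * ps T ^ (m - 1 - a + 1) by rw [← pow_add]; congr 1; omega]
          ring
        rw [sum_congr rfl h4, ← mul_sum, ← mul_sum]
        ring
  -- conclusion
  refine ⟨Nat.lcmUpto k * g, Nat.mul_pos (Nat.lcmUpto_pos k) hg0, ?_, fun m hm => ?_⟩
  · push_cast
    have h1 := lcm_bound k
    have h2 : ((2 : ℝ) ^ 8) ^ k ≤ Q ^ 8 := by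
      rw [hQ, ← pow_mul, ← pow_mul]
      refine (pow_le_pow_left₀ (by norm_num) hB2 _).trans (pow_le_pow_right₀ hB1 (by omega))
    have h3 : (C ^ N) ^ (k + 1) ≤ Q ^ N := by
      rw [hQ, ← pow_mul, ← pow_mul, mul_comm]
      exact pow_le_pow_left₀ hC0.le hCB _
    calc (Nat.lcmUpto k : ℝ) * g ≤ Q ^ 8 * Q ^ N :=
          mul_le_mul (h1.trans h2) (hg1.trans h3) (by positivity) (by positivity)
      _ = Q ^ (8 + N) := by ring
      _ ≤ Q ^ (8 + (N + N + 1 + (q + 1) + (q + (q + 1)) + (q + 1) + (q + 1) + (N + 1)) + (1 + (q + (q + 1) + (q + 1) + (q + 1) )) + N) :=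
          pow_le_pow_right₀ hQ1 (by omega)
      _ = _ := by rw [hQ, ← pow_mul, ← pow_mul, mul_comm]
  · rcases Nat.eq_zero_or_pos m with rfl | hm0
    · refine ⟨fun j => if j = i₀ then Polynomial.C ((Nat.lcmUpto k * g : ℕ) : ℤ) else 0, fun j => ?_, ?_⟩
      · have hL : ((Nat.lcmUpto k * g : ℕ) : ℝ) ≤
            ((B ^ (8 + (N + N + 1 + (q + 1) + (q + (q + 1)) + (q + 1) + (q + 1) + (N + 1)) + (1 + (q + (q + 1) + (q + 1) + (q + 1) )) + N)) ^ (k + 1)) := by
          push_cast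
          have h1 := lcm_bound k
          have h2 : ((2 : ℝ) ^ 8) ^ k ≤ Q ^ 8 := by
            rw [hQ, ← pow_mul, ← pow_mul]
            refine (pow_le_pow_left₀ (by norm_num) hB2 _).trans (pow_le_pow_right₀ hB1 (by omega))
          have h3 : (C ^ N) ^ (k + 1) ≤ Q ^ N := by
            rw [hQ, ← pow_mul, ← pow_mul, mul_comm]
            exact pow_le_pow_left₀ hC0.le hCB _
          calc (Nat.lcmUpto k : ℝ) * g ≤ Q ^ 8 * Q ^ N :=
                mul_le_mul (h1.trans h2) (hg1.trans h3) (by positivity) (by positivity)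
            _ = Q ^ (8 + N) := by ring
            _ ≤ Q ^ (8 + (N + N + 1 + (q + 1) + (q + (q + 1)) + (q + 1) + (q + 1) + (N + 1)) + (1 + (q + (q + 1) + (q + 1) + (q + 1) )) + N) :=
                pow_le_pow_right₀ hQ1 (by omega)
            _ = _ := by rw [hQ, ← pow_mul, ← pow_mul, mul_comm]
        have hge : (0 : ℝ) ≤ ((B ^ (8 + (N + N + 1 + (q + 1) + (q + (q + 1)) + (q + 1) + (q + 1) + (N + 1)) + (1 + (q + (q + 1) + (q + 1) + (q + 1) )) + N)) ^ (k + 1)) := by
          positivity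
        refine ⟨?_, fun l => ?_⟩
        · beta_reduce
          split_ifs
          · exact (Polynomial.natDegree_C _).le.trans (Nat.zero_le _)
          · exact Polynomial.natDegree_zero.le.trans (Nat.zero_le _)
        · beta_reduce
          split_ifs
          · rw [Polynomial.coeff_C]
            split_ifs
            · rw [Int.cast_natCast, abs_of_nonneg (Nat.cast_nonneg _)]
              exact hL
            · simpa using hge
          · simpa using hge
      · rw [sum_eq_single i₀]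
        · beta_reduce
          rw [if_pos rfl, ps_C, hd_zero, pow_zero, one_mul]
          push_cast
          rfl
        · intro j _ hj
          beta_reduce
          rw [if_neg hj, ps_zero, zero_mul]
        · intro h; exact absurd (mem_univ _) h
    · obtain ⟨m, rfl⟩ : ∃ m', m = m' + 1 := ⟨m - 1, by omega⟩
      obtain ⟨Ψ, h1, h2⟩ := main m (by omega)
      obtain ⟨c, hc⟩ := dvd_lcmUpto (show 1 ≤ m + 1 by omega) hm
      refine ⟨fun j => Polynomial.C (c : ℤ) * Ψ j, fun j => ?_, ?_⟩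
      · have hcB : |((c : ℤ) : ℝ)| ≤ Q ^ 8 := by
          rw [Int.cast_natCast, abs_of_nonneg (Nat.cast_nonneg _)]
          have h3 : (c : ℝ) ≤ Nat.lcmUpto k := by
            rw [hc]
            exact_mod_cast Nat.le_mul_of_pos_left c (Nat.succ_pos m)
          refine (h3.trans (lcm_bound k)).trans ?_
          rw [hQ, ← pow_mul, ← pow_mul]
          refine (pow_le_pow_left₀ (by norm_num) hB2 _).trans (pow_le_pow_right₀ hB1 (by omega))
        refine ((h1 j).C_mul hcB).mono le_rfl ?_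
        have h4 : (2 * K) ^ m ≤ Q ^ (1 + (q + (q + 1) + (q + 1) + (q + 1))) := by
          refine le_trans ?_ (hBk _ m (by omega))
          refine pow_le_pow_left₀ (by positivity) ?_ _
          rw [hK, add_comm 1, pow_succ, mul_comm]
          exact mul_le_mul_of_nonneg_left hB2 (by positivity)
        calc Q ^ 8 * (A * (2 * K) ^ m) ≤ Q ^ 8 * (A * Q ^ (1 + (q + (q + 1) + (q + 1) + (q + 1)))) := by gcongr
          _ = Q ^ (8 + (N + N + 1 + (q + 1) + (q + (q + 1)) + (q + 1) + (q + 1) + (N + 1)) + (1 + (q + (q + 1) + (q + 1) + (q + 1)))) := by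
              rw [hA]; ring
          _ ≤ Q ^ (8 + (N + N + 1 + (q + 1) + (q + (q + 1)) + (q + 1) + (q + 1) + (N + 1)) + (1 + (q + (q + 1) + (q + 1) + (q + 1) )) + N) :=
              pow_le_pow_right₀ hQ1 (by omega)
          _ = _ := by rw [hQ, ← pow_mul, ← pow_mul, mul_comm]
      · have h3 : ∑ j, ps (Polynomial.C (c : ℤ) * Ψ j) * y j = (c : ℚ⟦X⟧) * ∑ j, ps (Ψ j) * y j := by
          rw [mul_sum]
          refine sum_congr rfl fun j _ => ?_
          rw [ps_mul, ps_C]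
          push_cast
          ring
        rw [h3, ← h2, hd_deriv, hc]
        push_cast
        ring

end Pool.Agent.Y119.ML
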