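import Pool.Agent.Y119.ML.Fam2
import Pool.Agent.Y113.G.Ev

/-!
# The values of the hyperlogarithms
-/

set_option autoImplicit false

open PowerSeries Finset Filter Topology

namespace Pool.Agent.Y119.ML

open Pool.Agent.Y113

/-- the sum of the series at `x` -/
noncomputable def S (f : ℚ⟦X⟧) (x : ℝ) : ℝ := ∑' m : ℕ, ((coeff m f : ℚ) : ℝ) * x ^ m

lemma ev_eq (t : ℝ) (f : ℚ⟦X⟧) : ev t f = S f (1 / t) := rfl

lemma S_zero (f : ℚ⟦X⟧) : S f 0 = ((constantCoeff f : ℚ) : ℝ) := by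
  unfold S
  rw [tsum_eq_single 0]
  · simp
  · intro m hm
    simp [hm]

lemma hasDerivAt_S {A : ℝ} {f : ℚ⟦X⟧} (h : SDp A f) {x : ℝ} (hx : |x| * A < 1) :
    HasDerivAt (S f) (S (d⁄dX ℚ f) x) x := by
  have hA := h.one_le
  have hA0 : 0 < A := by linarith
  obtain ⟨ρ, h1, h2⟩ : ∃ ρ : ℝ, |x| < ρ ∧ ρ * A < 1 := by
    refine ⟨(|x| + 1 / A) / 2, ?_, ?_⟩
    · have : |x| < 1 / A := by rwa [lt_div_iff₀ hA0]
      linarith
    · have : 1 / A * A = 1 := by field_simp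
      nlinarith
  have hρ : 0 < ρ := (abs_nonneg x).trans_lt h1
  have hbound : ∀ (n : ℕ) (y : ℝ), y ∈ Metric.ball (0 : ℝ) ρ →
      ‖((coeff n f : ℚ) : ℝ) * (n * y ^ (n - 1))‖ ≤ (A ^ 2 * (n : ℝ)) * (ρ * A) ^ (n - 1) := by
    intro n y hy
    rw [mem_ball_zero_iff, Real.norm_eq_abs] at hy
    rw [norm_mul, norm_mul, norm_pow, Real.norm_eq_abs, Real.norm_eq_abs, Real.norm_eq_abs, Nat.abs_cast]
    rcases Nat.eq_zero_or_pos n with rfl | hn
    · simp
    · obtain ⟨m, rfl⟩ : ∃ m, n = m + 1 := ⟨n - 1, by omega⟩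
      rw [Nat.add_sub_cancel]
      calc |((coeff (m + 1) f : ℚ) : ℝ)| * (((m + 1 : ℕ) : ℝ) * |y| ^ m)
          ≤ A ^ (m + 1 + 1) * (((m + 1 : ℕ) : ℝ) * ρ ^ m) := by
            gcongr
            exact h.1 _
        _ = A ^ 2 * ((m + 1 : ℕ) : ℝ) * (ρ * A) ^ m := by rw [mul_pow]; ring
  have hsum : Summable fun n : ℕ => (A ^ 2 * (n : ℝ)) * (ρ * A) ^ (n - 1) := by
    rw [← summable_nat_add_iff 1]
    simp only [Nat.add_sub_cancel]
    have e1 := summable_pow_mul_geometric_of_norm_lt_one 1 (r := ρ * A) (by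
      rw [Real.norm_eq_abs, abs_of_nonneg (by positivity)]; exact h2)
    have e2 := summable_geometric_of_lt_one (r := ρ * A) (by positivity) h2
    have e3 := (e1.add e2).mul_left (A ^ 2)
    refine e3.congr fun n => ?_
    push_cast
    ring
  have h0 : Summable fun n : ℕ => ((coeff n f : ℚ) : ℝ) * (0 : ℝ) ^ n := by
    refine summable_of_ne_finset_zero (s := {0}) fun n hn => ?_
    rw [Finset.mem_singleton] at hn
    rw [zero_pow hn, mul_zero]
  have h3 := hasDerivAt_tsum_of_isPreconnected (g := fun (n : ℕ) (y : ℝ) => ((coeff n f : ℚ) : ℝ) * y ^ n)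
    (g' := fun (n : ℕ) (y : ℝ) => ((coeff n f : ℚ) : ℝ) * (n * y ^ (n - 1))) hsum Metric.isOpen_ball
    (convex_ball (0 : ℝ) ρ).isPreconnected (fun n y _ => (hasDerivAt_pow n y).const_mul _) hbound
    (Metric.mem_ball_self hρ) h0 (y := x) (by rw [mem_ball_zero_iff]; exact h1)
  have h4 : ∑' n : ℕ, ((coeff n f : ℚ) : ℝ) * (n * x ^ (n - 1)) = S (d⁄dX ℚ f) x := by
    unfold S
    rw [Summable.tsum_eq_zero_add]
    · simp only [Nat.cast_zero, zero_mul, mul_zero, zero_add, Nat.add_sub_cancel]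
      refine tsum_congr fun n => ?_
      rw [coeff_derivative]
      push_cast
      ring
    · exact Summable.of_norm_bounded hsum fun n => hbound n x (by rw [mem_ball_zero_iff]; exact h1)
  rw [← h4]
  exact h3

lemma Cv_of {A : ℝ} {f : ℚ⟦X⟧} (h : SDp A f) {x : ℝ} (hx : 0 < x) (hxA : x * A < 1) : Cv (1 / x) f := by
  have hA := h.one_le
  have hA0 : 0 < A := by linarith
  refine Cv.of_bound (one_div_pos.2 hx) hA0.le ?_ (A := A) fun m => ?_
  · rw [lt_div_iff₀ hx, mul_comm]; exact hxA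
  · rw [← pow_succ']; exact h.1 m

lemma S_mul {A B : ℝ} {f g : ℚ⟦X⟧} (h : SDp A f) (h' : SDp B g) {x : ℝ} (hx : 0 < x) (hxA : x * A < 1)
    (hxB : x * B < 1) : S (f * g) x = S f x * S g x := by
  have h1 := Cv.ev_mul (one_div_pos.2 hx) (Cv_of h hx hxA) (Cv_of h' hx hxB)
  rw [ev_eq, ev_eq, ev_eq, one_div_one_div] at h1
  exact h1

lemma S_X (x : ℝ) : S X x = x := by
  unfold S
  rw [tsum_eq_single 1]
  · simp
  · intro m hm
    rw [coeff_X, if_neg hm]; simp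

lemma S_geo (n : ℤ) {x : ℝ} (hx : |(n : ℝ) * x| < 1) : S (geo n) x = (1 - n * x)⁻¹ := by
  unfold S
  rw [← tsum_geometric_of_abs_lt_one hx]
  refine tsum_congr fun m => ?_
  rw [geo, coeff_mk, mul_pow]
  push_cast
  ring

end Pool.Agent.Y119.ML
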