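import Pool.Agent.Y119.ML.Ev

/-!
# The values of the hyperlogarithms: iterated integrals
-/

set_option autoImplicit false

open PowerSeries Finset Filter Topology MeasureTheory

namespace Pool.Agent.Y119.ML

open Pool.Agent.Y113

variable {r : ℕ} (α : Fin r → ℤ)

/-- the hyperlogarithm of a word: the iterated integral from `0` to `x` of the forms `dy / y` (letter `none`) and
`dy / (1 - α a y)` (letter `some a`) -/
noncomputable def HL : List (Option (Fin r)) → ℝ → ℝ
  | [] => fun _ => 1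
  | none :: w => fun x => ∫ y in (0 : ℝ)..x, HL w y / y
  | some a :: w => fun x => ∫ y in (0 : ℝ)..x, HL w y / (1 - α a * y)

/-- the value of the integrand -/
noncomputable def wt (o : Option (Fin r)) (y : ℝ) : ℝ :=
  match o with
  | none => 1 / y
  | some a => 1 / (1 - α a * y)

lemma HL_cons (o : Option (Fin r)) (w : List (Option (Fin r))) (x : ℝ) :
    HL α (o :: w) x = ∫ y in (0 : ℝ)..x, HL α w y * wt α o y := by
  rcases o with _ | a
  · simp only [HL, wt]
    congr 1
    funext y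
    ring
  · simp only [HL, wt]
    congr 1
    funext y
    ring

/-- the value of the form at `y / (1 + g y)` -/
lemma S_UU (o : Option (Fin r)) (g : ℕ) {y : ℝ} (hy : 0 < y)
    (hα : ∀ a, |(((g : ℤ) + α a : ℤ) : ℝ) * (y / (1 + g * y))| ≤ 1 / 2)
    (hg : (g : ℝ) * (y / (1 + g * y)) ≤ 1 / 2) :
    S (UU α g o) (y / (1 + g * y)) / (y / (1 + g * y)) / (1 + g * y) ^ 2 = wt α o y := by
  have hgy : 0 < 1 + (g : ℝ) * y := by positivity
  set x := y / (1 + g * y) with hx
  have hx0 : 0 < x := by positivity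
  have hg0 : 0 ≤ (g : ℝ) * x := by positivity
  have h1 : 1 - (g : ℝ) * x = 1 / (1 + g * y) := by rw [hx]; field_simp; ring
  have hgeo : S (geo g) x = 1 + g * y := by
    rw [S_geo]
    · push_cast
      rw [h1, one_div, inv_inv]
    · push_cast
      rw [abs_of_nonneg hg0]; linarith
  rcases o with _ | a
  · show S (geo g) x / x / (1 + g * y) ^ 2 = 1 / y
    rw [hgeo, hx]
    field_simp
  · have hga := hα a
    have h2 : (1 - (((g : ℤ) + α a : ℤ) : ℝ) * x) ≠ 0 := by
      have := (abs_le.1 hga).2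
      intro h; linarith
    have hgeo2 : S (geo (g + α a)) x = (1 - (((g : ℤ) + α a : ℤ) : ℝ) * x)⁻¹ := S_geo _ (by linarith)
    -- summability
    have cg : Cv (1 / x) (geo g) := by
      refine Cv.of_bound (one_div_pos.2 hx0) (A := 1) (B := g) (Nat.cast_nonneg g) ?_ fun m => ?_
      · rw [lt_div_iff₀ hx0]; linarith
      · rw [geo, coeff_mk]; push_cast; rw [abs_of_nonneg (by positivity), one_mul]
    have cga : Cv (1 / x) (geo (g + α a)) := by
      refine Cv.of_bound (one_div_pos.2 hx0) (A := 1) (B := |(((g : ℤ) + α a : ℤ) : ℝ)|) (abs_nonneg _) ?_ fun m => ?_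
      · rw [lt_div_iff₀ hx0]
        have : |(((g : ℤ) + α a : ℤ) : ℝ)| * x = |(((g : ℤ) + α a : ℤ) : ℝ) * x| := by
          rw [abs_mul, abs_of_pos hx0]
        linarith
      · rw [geo, coeff_mk]; push_cast; rw [abs_pow, one_mul]
    have cX : Cv (1 / x) X := by
      have h3 := Cv.coe (t := 1 / x) (Polynomial.X : Polynomial ℚ)
      rwa [Polynomial.coe_X] at h3
    have h3 : S (UU α g (some a)) x = x * (1 + g * y) * (1 - (((g : ℤ) + α a : ℤ) : ℝ) * x)⁻¹ := by
      have e1 := Cv.ev_mul (one_div_pos.2 hx0) (cX.mul (one_div_pos.2 hx0) cg) cga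
      have e2 := Cv.ev_mul (one_div_pos.2 hx0) cX cg
      rw [e2, ev_eq, ev_eq, ev_eq, ev_eq, one_div_one_div] at e1
      rw [S_X, hgeo, hgeo2] at e1
      exact e1
    rw [h3]
    show _ = 1 / (1 - (α a : ℝ) * y)
    have h4 : (1 + (g : ℝ) * y) * (1 - (((g : ℤ) + α a : ℤ) : ℝ) * x) = 1 - α a * y := by
      rw [hx]; push_cast; field_simp; ring
    rw [← h4]
    field_simp

/-- the hyperlogarithm is the sum of the series -/
theorem HL_eq (w : List (Option (Fin r))) (hw : adm w) : ∃ E : ℕ, ∀ (g : ℕ) (x : ℝ), 0 ≤ x →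
    x * ((g : ℝ) + 2) ^ E ≤ 1 → HL α w (x / (1 - g * x)) = S (LL α g w) x := by
  induction w with
  | nil =>
    refine ⟨0, fun g x _ _ => ?_⟩
    show (1 : ℝ) = S 1 x
    unfold S
    rw [tsum_eq_single 0]
    · simp
    · intro m hm
      rw [coeff_one, if_neg hm]; simp
  | cons o v ih =>
    obtain ⟨Ev, hEv⟩ := ih (adm_tail hw)
    obtain ⟨E₁, hE₁⟩ := SDE_LL α (o :: v)
    obtain ⟨E₂, hE₂⟩ := SDE_LL α v
    obtain ⟨E₃, hE₃⟩ := SDE_UU α o
    refine ⟨Ev + (2 + 2 * E₁) + E₂ + E₃ + ex α + 2, fun g x hx0 hx => ?_⟩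
    have hg1 := one_le_base g
    have hg2 : (2 : ℝ) ≤ (g : ℝ) + 2 := by linarith [show (0 : ℝ) ≤ g by positivity]
    set b : ℝ := (g : ℝ) + 2 with hb
    have hb0 : 0 < b := by linarith
    -- all small exponents
    have hsm : ∀ e : ℕ, e + 2 ≤ Ev + (2 + 2 * E₁) + E₂ + E₃ + ex α + 2 → ∀ y, 0 ≤ y → y ≤ x → y * b ^ e ≤ 1 / 4 := by
      intro e he y hy0 hyx
      have h1 : y * b ^ (e + 2) ≤ 1 :=
        (mul_le_mul hyx (base_mono hg1 he) (by positivity) hx0).trans hx
      have h2 : (4 : ℝ) ≤ b ^ 2 := by nlinarith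
      have h3 : 0 ≤ y * b ^ e := by positivity
      rw [pow_add, ← mul_assoc] at h1
      nlinarith
    have hgx : (g : ℝ) * x ≤ 1 / 4 := by
      have := hsm 1 (by omega) x hx0 le_rfl
      rw [pow_one] at this
      nlinarith
    rcases hx0.eq_or_lt with rfl | hx0'
    · rw [zero_div, HL_cons, intervalIntegral.integral_same, S_zero, const_LL α g (by simp)]
      simp
    have hx1 : 0 < 1 - (g : ℝ) * x := by linarith
    set X' : ℝ := x / (1 - g * x) with hX'
    have hX0 : 0 < X' := by positivity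
    -- the substitution
    set ψ : ℝ → ℝ := fun y => y / (1 + g * y) with hψ
    have hψX : ψ X' = x := by
      simp only [hψ, hX']
      have h2 : (1 - (g : ℝ) * x) ≠ 0 := hx1.ne'
      have h1 : 1 + (g : ℝ) * (x / (1 - g * x)) = 1 / (1 - g * x) := by field_simp; ring
      rw [h1, div_div, mul_one_div_cancel h2, div_one]
    have hpos : ∀ y, 0 ≤ y → 0 < 1 + (g : ℝ) * y := fun y hy => by positivity
    have hψmono : ∀ y, 0 ≤ y → y ≤ X' → 0 ≤ ψ y ∧ ψ y ≤ x := by
      intro y hy0 hyX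
      refine ⟨div_nonneg hy0 (hpos y hy0).le, ?_⟩
      rw [← hψX]
      simp only [hψ]
      rw [div_le_div_iff₀ (hpos y hy0) (hpos X' hX0.le)]
      nlinarith
    have hψinv : ∀ y, 0 ≤ y → ψ y / (1 - g * ψ y) = y := by
      intro y hy0
      have h1 := hpos y hy0
      simp only [hψ]
      have h2 : 1 - (g : ℝ) * (y / (1 + g * y)) = 1 / (1 + g * y) := by field_simp; ring
      rw [h2]
      field_simp
    set f := LL α g (o :: v) with hf
    have hSD := hE₁ g
    have hder : ∀ y, 0 ≤ y → y ≤ X' → HasDerivAt (fun y => S f (ψ y)) (S (d⁄dX ℚ f) (ψ y) * (1 / (1 + g * y) ^ 2)) y := by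
      intro y hy0 hyX
      have h1 := hψmono y hy0 hyX
      have h2 := hsm E₁ (by omega) (ψ y) h1.1 h1.2
      have h3 := hasDerivAt_S hSD (x := ψ y) (by rw [abs_of_nonneg h1.1]; linarith)
      have h4 : HasDerivAt ψ (1 / (1 + g * y) ^ 2) y := by
        have h5 := (hasDerivAt_id y).div (((hasDerivAt_id y).const_mul (g : ℝ)).const_add 1) (hpos y hy0).ne'
        refine h5.congr_deriv ?_
        simp only [id]
        congr 1
        ring
      exact h3.comp y h4
    have hcont : ContinuousOn (fun y => S (d⁄dX ℚ f) (ψ y) * (1 / (1 + g * y) ^ 2)) (Set.Icc 0 X') := by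
      intro y hy
      have h1 := hψmono y hy.1 hy.2
      have h2 := hsm (1 + 2 * E₁) (by omega) (ψ y) h1.1 h1.2
      have h3 := (hasDerivAt_S hSD.deriv (x := ψ y) (by
        rw [abs_of_nonneg h1.1]
        have : 2 * (b ^ E₁) ^ 2 ≤ b ^ (1 + 2 * E₁) := by
          rw [pow_add, pow_one, ← pow_mul, mul_comm E₁]
          exact mul_le_mul_of_nonneg_right hg2 (by positivity)
        have := mul_le_mul_of_nonneg_left this h1.1
        linarith)).continuousAt
      have h4 : ContinuousAt ψ y := by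
        simp only [hψ]
        exact continuousAt_id.div (by fun_prop) (hpos y hy.1).ne'
      have h5 : ContinuousAt (fun y : ℝ => 1 / (1 + (g : ℝ) * y) ^ 2) y :=
        continuousAt_const.div (by fun_prop) (pow_ne_zero 2 (hpos y hy.1).ne')
      exact ((ContinuousAt.comp (f := ψ) (g := S (d⁄dX ℚ f)) h3 h4).mul h5).continuousWithinAt
    have hFTC : ∫ y in (0 : ℝ)..X', S (d⁄dX ℚ f) (ψ y) * (1 / (1 + g * y) ^ 2) = S f (ψ X') - S f (ψ 0) := by
      refine intervalIntegral.integral_eq_sub_of_hasDerivAt (f := fun y => S f (ψ y)) (fun y hy => ?_) ?_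
      · rw [Set.uIcc_of_le hX0.le] at hy
        exact hder y hy.1 hy.2
      · refine ContinuousOn.intervalIntegrable ?_
        rw [Set.uIcc_of_le hX0.le]
        exact hcont
    have hψ0 : ψ 0 = 0 := by simp [hψ]
    rw [hψX, hψ0, S_zero, hf, const_LL α g (by simp), Rat.cast_zero, sub_zero] at hFTC
    rw [← hFTC, HL_cons]
    refine intervalIntegral.integral_congr_ae (ae_of_all _ fun y hy => ?_)
    rw [Set.uIoc_of_le hX0.le] at hy
    have hy0 := hy.1
    have h1 := hψmono y hy0.le hy.2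
    have hψp : 0 < ψ y := div_pos hy0 (hpos y hy0.le)
    -- the values
    have e1 : HL α v y = S (LL α g v) (ψ y) := by
      have h2 := hEv g (ψ y) h1.1 (by have := hsm Ev (by omega) (ψ y) h1.1 h1.2; linarith)
      rwa [hψinv y hy0.le] at h2
    have e2 : ψ y * S (d⁄dX ℚ f) (ψ y) = S (UU α g o) (ψ y) * S (LL α g v) (ψ y) := by
      have h2 := hsm (1 + 2 * E₁) (by omega) (ψ y) h1.1 h1.2
      have h3 : 2 * (b ^ E₁) ^ 2 ≤ b ^ (1 + 2 * E₁) := by
        rw [pow_add, pow_one, ← pow_mul, mul_comm E₁]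
        exact mul_le_mul_of_nonneg_right hg2 (by positivity)
      have h4 := mul_le_mul_of_nonneg_left h3 h1.1
      have h5 : ψ y ≤ 1 / 4 := by
        have := hsm 0 (by omega) (ψ y) h1.1 h1.2
        simpa using this
      rw [← S_mul (hE₃ g) (hE₂ g) hψp (by have := hsm E₃ (by omega) (ψ y) h1.1 h1.2; linarith)
        (by have := hsm E₂ (by omega) (ψ y) h1.1 h1.2; linarith), ← theta_LL α g hw,
        S_mul SDp.X hSD.deriv hψp (by linarith) (by linarith), S_X]
    have e3 := S_UU α o g hy0 (fun a => ?_) ?_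
    · have e4 : S (d⁄dX ℚ (LL α g (o :: v))) (ψ y) = S (UU α g o) (ψ y) * S (LL α g v) (ψ y) / ψ y := by
        rw [← e2]; field_simp; rfl
      rw [e1, ← e3, e4]
      show S (LL α g v) (ψ y) * (S (UU α g o) (ψ y) / ψ y / (1 + g * y) ^ 2) = _
      ring
    · have h2 := hsm (ex α) (by omega) (ψ y) h1.1 h1.2
      have h3 := (le_base (α a) g).trans (base_mono hg1 (ex_le α a))
      show |(((g : ℤ) + α a : ℤ) : ℝ) * ψ y| ≤ 1 / 2
      rw [abs_mul, abs_of_nonneg h1.1]
      have h4 := mul_le_mul_of_nonneg_right h3 h1.1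
      linarith
    · have h2 := hsm 1 (by omega) (ψ y) h1.1 h1.2
      show (g : ℝ) * ψ y ≤ 1 / 2
      rw [pow_one] at h2
      have : (g : ℝ) * ψ y ≤ b * ψ y := mul_le_mul_of_nonneg_right (by linarith) h1.1
      linarith

/-- the value of the logarithm -/
lemma S_lg (g : ℕ) {x : ℝ} (hx : 0 ≤ x) (hgx : (g : ℝ) * x < 1) : S (lg g) x = Real.log (1 - g * x) := by
  have h1 := Real.hasSum_pow_div_log_of_abs_lt_one (x := (g : ℝ) * x) (by
    rw [abs_of_nonneg (by positivity)]; exact hgx)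
  have h2 : HasSum (fun m : ℕ => ((coeff m (lg g) : ℚ) : ℝ) * x ^ m) (Real.log (1 - g * x)) := by
    rw [← hasSum_nat_add_iff' 1]
    have h3 := h1.neg
    rw [neg_neg] at h3
    convert h3 using 1
    · funext n
      rw [Pool.Agent.Y113.lg, coeff_mk, mul_pow]
      push_cast
      field_simp
    · simp [Pool.Agent.Y113.lg]
  exact h2.tsum_eq

end Pool.Agent.Y119.ML
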