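import Pool.Agent.W924.LF.Germ
import Pool.Agent.Y113.G.Hd
import Pool.Agent.Y141.GF.BD

/-!
# Rational functions inside the Laurent series over the rational numbers, the forms `dlog (1 - n z)`
-/

set_option autoImplicit false

open Finset PowerSeries

namespace Pool.Agent.Y119.ML

open Pool.Agent.W924.LF (eul coeff_eul)

attribute [-instance] HahnSeries.powerSeriesAlgebra

/-- Laurent series -/
abbrev FF : Type := HahnSeries ℤ ℚ

/-- the embedding of the power series -/
noncomputable def io : ℚ⟦X⟧ →+* FF := HahnSeries.ofPowerSeries ℤ ℚ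

lemma io_inj : Function.Injective io := HahnSeries.ofPowerSeries_injective

instance : CharZero ℚ⟦X⟧ := charZero_of_injective_ringHom (PowerSeries.C_injective (R := ℚ))

instance : CharZero FF := charZero_of_injective_ringHom io_inj

lemma coeff_io (f : ℚ⟦X⟧) (n : ℕ) : (io f).coeff (n : ℤ) = coeff n f :=
  HahnSeries.ofPowerSeries_apply_coeff f n

lemma coeff_io_neg (f : ℚ⟦X⟧) {n : ℤ} (hn : n < 0) : (io f).coeff n = 0 := by
  show (HahnSeries.ofPowerSeries ℤ ℚ f).coeff n = 0
  rw [HahnSeries.ofPowerSeries_apply]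
  refine HahnSeries.embDomain_of_notMem_range ?_
  rintro ⟨m, hm⟩
  have : (m : ℤ) = n := hm
  omega

lemma eul_io (f : ℚ⟦X⟧) : eul (io f) = io (X * d⁄dX ℚ f) := by
  ext g
  rw [coeff_eul]
  rcases lt_or_ge g 0 with hg | hg
  · rw [coeff_io_neg _ hg, coeff_io_neg _ hg, mul_zero]
  · obtain ⟨n, rfl⟩ : ∃ n : ℕ, g = (n : ℤ) := ⟨g.toNat, by omega⟩
    rw [coeff_io, coeff_io]
    cases n with
    | zero => simp
    | succ n =>
      rw [mul_comm X, coeff_succ_mul_X, coeff_derivative]
      push_cast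
      ring

/-- the polynomials in the Laurent series -/
noncomputable def pio : Polynomial ℚ →+* FF := io.comp (Polynomial.coeToPowerSeries.ringHom (R := ℚ))

lemma pio_apply (p : Polynomial ℚ) : pio p = io (p : ℚ⟦X⟧) := rfl

lemma pio_inj : Function.Injective pio := io_inj.comp (Polynomial.coe_injective ℚ)

lemma eul_pio (p : Polynomial ℚ) : eul (pio p) = pio (Polynomial.X * Polynomial.derivative p) := by
  rw [pio_apply, eul_io, pio_apply, Polynomial.coe_mul, Polynomial.coe_X, PowerSeries.derivative_coe]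

/-- the field of the rational functions -/
noncomputable def KF : Subfield FF := Subfield.closure (Set.range pio)

lemma mem_KF {x : FF} : x ∈ KF ↔ ∃ p q : Polynomial ℚ, q ≠ 0 ∧ x = pio p / pio q := by
  constructor
  · intro h
    rw [KF, Subfield.mem_closure_iff] at h
    have h1 : Subring.closure (Set.range pio) = pio.range := by
      rw [← RingHom.coe_range, Subring.closure_eq]
    rw [h1] at h
    obtain ⟨_, ⟨p, rfl⟩, _, ⟨q, rfl⟩, rfl⟩ := h
    by_cases hq : q = 0
    · exact ⟨0, 1, one_ne_zero, by rw [hq]; simp⟩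
    · exact ⟨p, q, hq, rfl⟩
  · rintro ⟨p, q, -, rfl⟩
    exact div_mem (Subfield.subset_closure ⟨p, rfl⟩) (Subfield.subset_closure ⟨q, rfl⟩)

lemma pio_mem (p : Polynomial ℚ) : pio p ∈ KF := Subfield.subset_closure ⟨p, rfl⟩

lemma eul_div (p q : Polynomial ℚ) (hq : q ≠ 0) : eul (pio p / pio q) =
    pio (Polynomial.X * (Polynomial.derivative p * q - p * Polynomial.derivative q)) / pio (q ^ 2) := by
  have hq' : pio q ≠ 0 := fun h => hq (pio_inj (by rw [h, map_zero]))
  rw [Derivation.leibniz_div, eul_pio, eul_pio, smul_eq_mul, smul_eq_mul, smul_eq_mul]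
  simp only [map_pow, map_mul, map_sub]
  field_simp

lemma eul_mem {x : FF} (h : x ∈ KF) : eul x ∈ KF := by
  obtain ⟨p, q, hq, rfl⟩ := mem_KF.1 h
  rw [eul_div p q hq]
  exact div_mem (pio_mem _) (pio_mem _)

/-- the polynomial `1 - n z`, or `z` for `n = 0` -/
noncomputable def vf (n : ℤ) : Polynomial ℚ := if n = 0 then Polynomial.X else 1 - Polynomial.C (n : ℚ) * Polynomial.X

lemma vf_ne (n : ℤ) : vf n ≠ 0 := by
  unfold vf
  split_ifs with h
  · exact Polynomial.X_ne_zero
  · intro h1
    have := congrArg (fun p => Polynomial.coeff p 0) h1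
    simp at this

/-- the root of `vf n` -/
noncomputable def rt (n : ℤ) : ℚ := 1 / n

lemma vf_eval (n m : ℤ) (h : n ≠ m) : (vf n).eval (rt m) ≠ 0 := by
  unfold vf rt
  by_cases hn : n = 0
  · rw [if_pos hn, Polynomial.eval_X]
    have : m ≠ 0 := fun h' => h (by rw [hn, h'])
    simpa using this
  · rw [if_neg hn]
    by_cases hm : m = 0
    · rw [hm]; simp
    · have hm' : (m : ℚ) ≠ 0 := by exact_mod_cast hm
      simp only [Polynomial.eval_sub, Polynomial.eval_one, Polynomial.eval_mul, Polynomial.eval_C, Polynomial.eval_X]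
      intro h'
      field_simp at h'
      have : (m : ℚ) = n := by linarith
      exact h (by exact_mod_cast this.symm)

lemma vf_taylor (n : ℤ) : Polynomial.taylor (rt n) (vf n) =
    Polynomial.X * Polynomial.derivative (vf n) := by
  unfold vf rt
  by_cases hn : n = 0
  · rw [if_pos hn, hn]
    simp
  · have hn' : (n : ℚ) ≠ 0 := by exact_mod_cast hn
    rw [if_neg hn]
    simp only [map_sub, Polynomial.taylor_one, Polynomial.taylor_mul, Polynomial.taylor_C, Polynomial.taylor_X,
      Polynomial.derivative_one, Polynomial.derivative_mul, Polynomial.derivative_C,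
      Polynomial.derivative_X, zero_mul, mul_one, zero_add, zero_sub]
    rw [mul_add, ← Polynomial.C_mul, mul_one_div_cancel hn', Polynomial.C_1]
    ring

/-- the form `dlog (vf n)`, applied to `z d/dz` -/
noncomputable def uf (n : ℤ) : FF := pio (Polynomial.X * Polynomial.derivative (vf n)) / pio (vf n)

lemma uf_mem (n : ℤ) : uf n ∈ KF := div_mem (pio_mem _) (pio_mem _)

/-- the Taylor expansion -/
noncomputable def ti (ξ : ℚ) : Polynomial ℚ →+* FF := io.comp (Pool.Agent.Y141.GF.phi ξ)

lemma ti_inj (ξ : ℚ) : Function.Injective (ti ξ) := io_inj.comp (Pool.Agent.Y141.GF.phi_injective ξ)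

lemma ti_ne (ξ : ℚ) {p : Polynomial ℚ} (hp : p ≠ 0) : ti ξ p ≠ 0 := fun h => hp (ti_inj ξ (by rw [h, map_zero]))

lemma eul_ti (ξ : ℚ) (p : Polynomial ℚ) : eul (ti ξ p) = io X * ti ξ (Polynomial.derivative p) := by
  show eul (io _) = _
  rw [eul_io, map_mul, Pool.Agent.Y141.GF.phi_deriv]
  rfl

/-- the forms are independent modulo the exact forms -/
theorem prim_poly {κ : Type} [Fintype κ] [DecidableEq κ] (ν : κ → ℤ) (hν : Function.Injective ν) (c : κ → ℚ)
    (p q : Polynomial ℚ) (hq : q ≠ 0)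
    (h : (Polynomial.derivative p * q - p * Polynomial.derivative q) * ∏ i, vf (ν i) =
      q ^ 2 * ∑ i, Polynomial.C (c i) * (Polynomial.derivative (vf (ν i)) * ∏ j ∈ univ.erase i, vf (ν j))) :
    ∀ i, c i = 0 := by
  intro i₀
  set ξ := rt (ν i₀) with hξ
  have hv : ∀ i, ti ξ (vf (ν i)) ≠ 0 := fun i => ti_ne ξ (vf_ne _)
  have hq' := ti_ne ξ hq
  have h1 := congrArg (ti ξ) h
  simp only [map_mul, map_sub, map_sum, map_pow, map_prod] at h1
  have h2 : eul (ti ξ p / ti ξ q) = ∑ i, ti ξ (Polynomial.C (c i)) *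
      (io X * ti ξ (Polynomial.derivative (vf (ν i))) / ti ξ (vf (ν i))) := by
    have hP : ∏ i, ti ξ (vf (ν i)) ≠ 0 := prod_ne_zero_iff.2 fun i _ => hv i
    have h3 : eul (ti ξ p / ti ξ q) * (ti ξ q ^ 2 * ∏ i, ti ξ (vf (ν i))) = io X *
        ((ti ξ (Polynomial.derivative p) * ti ξ q - ti ξ p * ti ξ (Polynomial.derivative q)) *
          ∏ i, ti ξ (vf (ν i))) := by
      rw [Derivation.leibniz_div, eul_ti, eul_ti, smul_eq_mul, smul_eq_mul, smul_eq_mul]
      field_simp
    rw [h1] at h3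
    have h4 : (∑ i, ti ξ (Polynomial.C (c i)) *
      (io X * ti ξ (Polynomial.derivative (vf (ν i))) / ti ξ (vf (ν i)))) * (ti ξ q ^ 2 * ∏ i, ti ξ (vf (ν i))) =
      io X * (ti ξ q ^ 2 * ∑ i, ti ξ (Polynomial.C (c i)) * (ti ξ (Polynomial.derivative (vf (ν i))) *
        ∏ j ∈ univ.erase i, ti ξ (vf (ν j)))) := by
      rw [sum_mul, mul_sum, mul_sum]
      refine sum_congr rfl fun i _ => ?_
      rw [← mul_prod_erase univ _ (mem_univ i)]
      have := hv i
      field_simp
    rw [← h4] at h3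
    exact mul_right_cancel₀ (mul_ne_zero (pow_ne_zero 2 hq') hP) h3
  have h5 := congrArg (fun x : FF => x.coeff 0) h2
  simp only [coeff_eul, Int.cast_zero, zero_mul, HahnSeries.coeff_sum] at h5
  have hC : ∀ i, ti ξ (Polynomial.C (c i)) = io (PowerSeries.C (c i)) := by
    intro i
    show io (Pool.Agent.Y141.GF.phi ξ (Polynomial.C (c i))) = _
    rw [Pool.Agent.Y141.GF.phi_apply, Polynomial.taylor_C, Polynomial.coe_C]
  rw [sum_eq_single i₀] at h5
  · have h6 : io X * ti ξ (Polynomial.derivative (vf (ν i₀))) = ti ξ (vf (ν i₀)) := by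
      show io X * io (Pool.Agent.Y141.GF.phi ξ _) = io (Pool.Agent.Y141.GF.phi ξ _)
      rw [Pool.Agent.Y141.GF.phi_apply, Pool.Agent.Y141.GF.phi_apply, ← map_mul, hξ, vf_taylor]
      have h7 : Polynomial.taylor (rt (ν i₀)) (Polynomial.derivative (vf (ν i₀))) =
          Polynomial.derivative (vf (ν i₀)) := by
        unfold vf
        split_ifs
        · simp
        · have : Polynomial.derivative (1 - Polynomial.C ((ν i₀ : ℤ) : ℚ) * Polynomial.X) =
              - Polynomial.C ((ν i₀ : ℤ) : ℚ) := by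
            rw [Polynomial.derivative_sub, Polynomial.derivative_one, Polynomial.derivative_C_mul_X, zero_sub]
          rw [this, map_neg, Polynomial.taylor_C]
      rw [h7, Polynomial.coe_mul, Polynomial.coe_X]
    rw [h6, div_self (hv i₀), mul_one, hC] at h5
    have h8 := coeff_io (PowerSeries.C (c i₀)) 0
    rw [Nat.cast_zero] at h8
    rw [h8] at h5
    simpa using h5.symm
  · intro i _ hi
    have h6 : constantCoeff (Pool.Agent.Y141.GF.phi ξ (vf (ν i))) ≠ 0 := by
      rw [Pool.Agent.Y141.GF.constantCoeff_phi]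
      exact vf_eval _ _ fun h => hi (hν h)
    have h7 : ti ξ (vf (ν i)) * io (Pool.Agent.Y141.GF.phi ξ (vf (ν i)))⁻¹ = 1 := by
      show io _ * io _ = 1
      rw [← map_mul, PowerSeries.mul_inv_cancel _ h6, map_one]
    have h8 : ti ξ (Polynomial.C (c i)) * (io X * ti ξ (Polynomial.derivative (vf (ν i))) / ti ξ (vf (ν i))) =
        io (X * (PowerSeries.C (c i) * Pool.Agent.Y141.GF.phi ξ (Polynomial.derivative (vf (ν i))) *
          (Pool.Agent.Y141.GF.phi ξ (vf (ν i)))⁻¹)) := by
      rw [hC]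
      simp only [map_mul]
      rw [eq_inv_of_mul_eq_one_right h7, div_eq_mul_inv]
      show _ * (io X * io _ * _) = _
      ring
    rw [h8]
    have h9 := coeff_io (X * (PowerSeries.C (c i) * Pool.Agent.Y141.GF.phi ξ (Polynomial.derivative (vf (ν i))) *
          (Pool.Agent.Y141.GF.phi ξ (vf (ν i)))⁻¹)) 0
    rw [Nat.cast_zero] at h9
    rw [h9]
    simp
  · intro h; exact absurd (mem_univ _) h

theorem prim {κ : Type} [Fintype κ] [DecidableEq κ] (ν : κ → ℤ) (hν : Function.Injective ν) (c : κ → FF)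
    (g : FF) (hc : ∀ i, eul (c i) = 0) (hg : g ∈ KF) (h : eul g = ∑ i, c i * uf (ν i)) : ∀ i, c i = 0 := by
  have hc' : ∀ i, c i = pio (Polynomial.C ((c i).coeff 0)) := by
    intro i
    ext n
    have h1 := congrArg (fun x : FF => x.coeff n) (hc i)
    simp only [coeff_eul, HahnSeries.coeff_zero, mul_eq_zero, Int.cast_eq_zero] at h1
    rw [pio_apply, Polynomial.coe_C]
    rcases lt_or_ge n 0 with hn | hn
    · rw [coeff_io_neg _ hn]
      rcases h1 with h1 | h1
      · omega
      · exact h1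
    · obtain ⟨m, rfl⟩ : ∃ m : ℕ, n = (m : ℤ) := ⟨n.toNat, by omega⟩
      rw [coeff_io, PowerSeries.coeff_C]
      split_ifs with hm
      · rw [hm]; rfl
      · rcases h1 with h1 | h1
        · exact absurd (by exact_mod_cast h1) hm
        · exact h1
  obtain ⟨p, q, hq, rfl⟩ := mem_KF.1 hg
  have hP := prim_poly ν hν (fun i => (c i).coeff 0) p q hq ?_
  · intro i
    rw [hc' i, hP i]
    simp
  · rw [eul_div p q hq] at h
    have hne : ∀ r : Polynomial ℚ, r ≠ 0 → pio r ≠ 0 := fun r hr h => hr (pio_inj (by rw [h, map_zero]))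
    apply mul_left_cancel₀ (Polynomial.X_ne_zero (R := ℚ))
    apply pio_inj
    have hq' := hne q hq
    have hv : ∀ i, pio (vf (ν i)) ≠ 0 := fun i => hne _ (vf_ne _)
    have hPn : ∏ i, pio (vf (ν i)) ≠ 0 := prod_ne_zero_iff.2 fun i _ => hv i
    rw [map_pow, div_eq_iff (pow_ne_zero 2 hq')] at h
    rw [← mul_assoc, map_mul, h, map_prod]
    rw [map_mul, map_mul, map_sum, map_pow, sum_mul, sum_mul, mul_sum, mul_sum]
    refine sum_congr rfl fun i _ => ?_
    rw [← mul_prod_erase univ _ (mem_univ i), uf, map_mul, map_mul, map_mul, map_prod, ← hc' i]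
    have := hv i
    field_simp

end Pool.Agent.Y119.ML
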