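import Pool.Agent.Y119.ML.LI2
import Pool.Agent.Y119.ML.Frac
import Pool.Agent.Y113.Defs

/-!
# Hyperlogarithms as power series, and their linear independence
-/

set_option autoImplicit false

open Finset PowerSeries

namespace Pool.Agent.Y119.ML

open Pool.Agent.W924.LF (eul coeff_eul)
open Pool.Agent.Y113 (lg)

attribute [-instance] HahnSeries.powerSeriesAlgebra

/-- the geometric series -/
noncomputable def geo (n : ℤ) : ℚ⟦X⟧ := PowerSeries.mk fun m => (n : ℚ) ^ m

lemma geo_eq (n : ℤ) : geo n = 1 + (n : ℚ⟦X⟧) * X * geo n := by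
  ext m
  cases m with
  | zero => simp [geo, mul_assoc]
  | succ m =>
    rw [show (n : ℚ⟦X⟧) * X * geo n = (n : ℚ⟦X⟧) * geo n * X by ring, map_add, coeff_succ_mul_X, coeff_one,
      if_neg (by omega)]
    have : (n : ℚ⟦X⟧) = PowerSeries.C (n : ℚ) := by simp
    rw [this, coeff_C_mul, geo, coeff_mk, coeff_mk]
    ring

lemma geo_mul (n : ℤ) : (1 - (n : ℚ⟦X⟧) * X) * geo n = 1 := by
  have := geo_eq n
  linear_combination this

/-- integration: `X d/dX` of `In f` is `f` without its constant term -/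
noncomputable def In (f : ℚ⟦X⟧) : ℚ⟦X⟧ := PowerSeries.mk fun m => coeff m f / m

lemma theta_In (f : ℚ⟦X⟧) : X * d⁄dX ℚ (In f) = f - PowerSeries.C (constantCoeff f) := by
  ext m
  cases m with
  | zero => simp
  | succ m =>
    rw [mul_comm X, coeff_succ_mul_X, coeff_derivative, In, coeff_mk, map_sub, PowerSeries.coeff_C, if_neg (by omega)]
    have : ((m : ℚ) + 1) ≠ 0 := by positivity
    push_cast
    field_simp
    ring

lemma const_In (f : ℚ⟦X⟧) : constantCoeff (In f) = 0 := by
  rw [← coeff_zero_eq_constantCoeff_apply, In, coeff_mk]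
  simp

variable {r : ℕ} (α : Fin r → ℤ)

/-- the form attached to a letter -/
noncomputable def UU (g : ℕ) : Option (Fin r) → ℚ⟦X⟧
  | none => geo g
  | some a => X * geo g * geo (g + α a)

/-- the hyperlogarithm of a word, at `z / (1 - g z)` -/
noncomputable def LL (g : ℕ) : List (Option (Fin r)) → ℚ⟦X⟧
  | [] => 1
  | o :: w => In (UU α g o * LL g w)

/-- admissible words: the last letter is not `none` -/
def adm (w : List (Option (Fin r))) : Prop := w.getLast? ≠ some none

lemma adm_tail {o : Option (Fin r)} {w : List (Option (Fin r))} (h : adm (o :: w)) : adm w := by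
  unfold adm at *
  cases w with
  | nil => simp
  | cons o' w => simpa using h

lemma adm_none {w : List (Option (Fin r))} (h : adm (none :: w)) : w ≠ [] := by
  rintro rfl
  exact h (by simp)

lemma const_LL (g : ℕ) {w : List (Option (Fin r))} (h : w ≠ []) : constantCoeff (LL α g w) = 0 := by
  cases w with
  | nil => exact absurd rfl h
  | cons o w => exact const_In _

lemma theta_LL (g : ℕ) {o : Option (Fin r)} {w : List (Option (Fin r))} (h : adm (o :: w)) :
    X * d⁄dX ℚ (LL α g (o :: w)) = UU α g o * LL α g w := by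
  rw [LL, theta_In]
  have : constantCoeff (UU α g o * LL α g w) = 0 := by
    cases o with
    | none => rw [map_mul, const_LL α g (adm_none h), mul_zero]
    | some a => simp [UU]
  rw [this]
  simp

lemma theta_lg (g : ℕ) : X * d⁄dX ℚ (lg g) = - ((g : ℤ) : ℚ⟦X⟧) * X * geo g := by
  have h1 : lg g = - In (geo g) := by
    ext m
    rw [Pool.Agent.Y113.lg, In, geo, map_neg, coeff_mk, coeff_mk, coeff_mk]
    simp
  rw [h1, map_neg, mul_neg, theta_In]
  have h2 := geo_eq g
  have h3 : constantCoeff (geo g) = 1 := by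
    rw [← coeff_zero_eq_constantCoeff_apply, geo, coeff_mk]; simp
  rw [h3]
  simp only [map_one]
  linear_combination -h2

lemma uf_zero : uf 0 = 1 := by
  have h : pio Polynomial.X ≠ 0 := fun h => Polynomial.X_ne_zero (pio_inj (by rw [h, map_zero]))
  unfold uf vf
  rw [if_pos rfl, Polynomial.derivative_X, mul_one, div_self h]

lemma uf_eq (n : ℤ) (hn : n ≠ 0) : uf n = io (- (n : ℚ⟦X⟧) * X * geo n) := by
  have h0 : pio (vf n) ≠ 0 := fun h => vf_ne n (pio_inj (by rw [h, map_zero]))
  unfold uf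
  rw [div_eq_iff h0]
  unfold vf
  rw [if_neg hn, pio_apply, pio_apply, ← map_mul]
  congr 1
  have h1 : Polynomial.derivative (1 - Polynomial.C (n : ℚ) * Polynomial.X) = - Polynomial.C (n : ℚ) := by
    rw [Polynomial.derivative_sub, Polynomial.derivative_one, Polynomial.derivative_C_mul_X, zero_sub]
  have h2 : ((Polynomial.C (n : ℚ) : Polynomial ℚ) : ℚ⟦X⟧) = (n : ℚ⟦X⟧) := by
    rw [Polynomial.coe_C]; simp
  rw [h1, Polynomial.coe_mul, Polynomial.coe_neg, Polynomial.coe_sub, Polynomial.coe_mul, Polynomial.coe_X,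
    Polynomial.coe_one, h2]
  linear_combination (n : ℚ⟦X⟧) * X * geo_mul n

lemma io_UU_none (g : ℕ) (hg : 1 ≤ g) : io (UU α g none) = uf 0 - uf g := by
  rw [uf_zero, uf_eq g (by omega), ← map_one io, ← map_sub]
  congr 1
  have := geo_eq g
  show geo g = _
  linear_combination this

lemma io_UU_some (g : ℕ) (hg : 1 ≤ g) (a : Fin r) (ha : α a ≠ 0) (hga : (g : ℤ) + α a ≠ 0) :
    io (UU α g (some a)) = ((1 / α a : ℚ) : FF) * (uf g - uf (g + α a)) := by
  rw [uf_eq g (by omega), uf_eq _ hga, ← map_sub]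
  have h1 : ((1 / α a : ℚ) : FF) = io (PowerSeries.C (1 / α a : ℚ)) := by
    rw [← eq_ratCast (io.comp (PowerSeries.C (R := ℚ)))]
    rfl
  rw [h1, ← map_mul]
  congr 1
  show X * geo g * geo (g + α a) = _
  have h2 := geo_mul g
  have h3 := geo_mul (g + α a)
  have h4 : PowerSeries.C (1 / α a : ℚ) * ((α a : ℤ) : ℚ⟦X⟧) = 1 := by
    have : ((α a : ℤ) : ℚ⟦X⟧) = PowerSeries.C (α a : ℚ) := by simp
    rw [this, ← map_mul, one_div_mul_cancel (by exact_mod_cast ha), map_one]
  push_cast at h2 h3 ⊢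
  set c : ℚ⟦X⟧ := PowerSeries.C (1 / α a : ℚ)
  set A : ℚ⟦X⟧ := (α a : ℚ⟦X⟧)
  set G : ℚ⟦X⟧ := (g : ℚ⟦X⟧)
  set x := geo g
  set y := geo (g + α a)
  -- (G + A) X y - G X x = A X x y
  have h5 : (G + A) * X * y - G * X * x = A * X * x * y := by
    linear_combination (- (G + A) * X * y) * h2 + G * X * x * h3
  linear_combination (-X * x * y) * h4 - c * h5

/-- words of length at most `W` -/
abbrev WI (r W : ℕ) : Type := {w : List (Option (Fin r)) // w.length ≤ W ∧ w.getLast? ≠ some none}

/-- the exponent of the logarithm and the word -/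
abbrev JJ (r W : ℕ) : Type := Fin (W + 1) × WI r W

/-- the list of the words of length `≤ W` -/
def wds (r : ℕ) : ℕ → Finset (List (Option (Fin r)))
  | 0 => {[]}
  | n + 1 => insert [] ((univ ×ˢ wds r n).image fun p : Option (Fin r) × List (Option (Fin r)) => p.1 :: p.2)

lemma mem_wds (n : ℕ) (w : List (Option (Fin r))) : w ∈ wds r n ↔ w.length ≤ n := by
  induction n generalizing w with
  | zero => simp [wds]
  | succ n ih =>
    cases w with
    | nil => simp [wds]
    | cons i v => simp [wds, ih]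

instance (r W : ℕ) : Fintype (WI r W) :=
  Fintype.subtype ((wds r W).filter fun w => w.getLast? ≠ some none) (fun w => by simp [mem_wds])

/-- the functions of the family -/
noncomputable def ff {W : ℕ} (g : ℕ) (j : JJ r W) : ℚ⟦X⟧ := lg g ^ (j.1 : ℕ) * LL α g j.2.1

/-- the matrices of the system -/
noncomputable def NN {W : ℕ} : Option (Option (Fin r)) → JJ r W → JJ r W → ℚ
  | none, j, j' => if j.2.1 = none :: j'.2.1 ∧ j.1 = j'.1 then 1 else 0
  | some none, j, j' => (if (j.1 : ℕ) = j'.1 + 1 ∧ j.2 = j'.2 then ((j.1 : ℕ) : ℚ) else 0) -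
      (if j.2.1 = none :: j'.2.1 ∧ j.1 = j'.1 then 1 else 0) +
      ∑ a, if j.2.1 = some a :: j'.2.1 ∧ j.1 = j'.1 then (1 / α a : ℚ) else 0
  | some (some a), j, j' => if j.2.1 = some a :: j'.2.1 ∧ j.1 = j'.1 then - (1 / α a : ℚ) else 0

/-- the degree -/
def dg {W : ℕ} (j : JJ r W) : ℕ := j.1 + j.2.1.length

/-- the constant function -/
def j0 (r W : ℕ) : JJ r W := (0, ⟨[], by simp, by simp⟩)

lemma dg_eq_zero {W : ℕ} (j : JJ r W) : dg j = 0 ↔ j = j0 r W := by
  obtain ⟨i, w, hw⟩ := j
  unfold dg j0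
  constructor
  · intro h
    have h1 : (i : ℕ) = 0 := by simp only at h; omega
    have h2 : w = [] := by
      rw [← List.length_eq_zero_iff]
      simp only at h; omega
    subst h2
    have h3 : i = 0 := Fin.ext h1
    subst h3
    rfl
  · intro h
    have h1 := congrArg (fun x : JJ r W => (x.1 : ℕ)) h
    have h2 := congrArg (fun x : JJ r W => x.2.1.length) h
    simp only [Fin.val_zero, List.length_nil] at h1 h2
    simp only
    omega

lemma NN_deg {W : ℕ} (o : Option (Option (Fin r))) (j j' : JJ r W) (h : NN α o j j' ≠ 0) : dg j = dg j' + 1 := by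
  have hc : ∀ o : Option (Fin r), j.2.1 = o :: j'.2.1 ∧ j.1 = j'.1 → dg j = dg j' + 1 := by
    rintro o ⟨h1, h2⟩
    unfold dg
    rw [h1, h2]
    simp; omega
  rcases o with _ | _ | a
  · simp only [NN] at h
    split_ifs at h with h1
    · exact hc _ h1
    · exact absurd rfl h
  · simp only [NN] at h
    by_cases h1 : (j.1 : ℕ) = j'.1 + 1 ∧ j.2 = j'.2
    · unfold dg
      rw [h1.1, h1.2]; omega
    · by_cases h2 : j.2.1 = none :: j'.2.1 ∧ j.1 = j'.1
      · exact hc _ h2
      · rw [if_neg h1, if_neg h2, sub_zero, zero_add] at h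
        obtain ⟨a, -, ha⟩ := exists_ne_zero_of_sum_ne_zero h
        split_ifs at ha with h3
        · exact hc _ h3
        · exact absurd rfl ha
  · simp only [NN] at h
    split_ifs at h with h1
    · exact hc _ h1
    · exact absurd rfl h

/-- the sum over the words with a given beginning -/
lemma sum_cons {M : Type} [AddCommMonoid M] {W : ℕ} (o : Option (Fin r)) (i : Fin (W + 1)) (o' : Option (Fin r))
    (v : List (Option (Fin r))) (hv : (o' :: v).length ≤ W ∧ (o' :: v).getLast? ≠ some none)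
    (hv' : v.length ≤ W ∧ v.getLast? ≠ some none) (φ : JJ r W → M) :
    ∑ j' : JJ r W, (if ((i, ⟨o' :: v, hv⟩) : JJ r W).2.1 = o :: j'.2.1 ∧ ((i, ⟨o' :: v, hv⟩) : JJ r W).1 = j'.1
      then φ j' else 0) = if o' = o then φ (i, ⟨v, hv'⟩) else 0 := by
  by_cases ho : o' = o
  · subst ho
    rw [if_pos rfl, sum_eq_single (i, ⟨v, hv'⟩)]
    · rw [if_pos ⟨rfl, rfl⟩]
    · rintro ⟨i', w'⟩ _ hne
      rw [if_neg]
      rintro ⟨h1, h2⟩
      apply hne
      simp only [List.cons.injEq] at h1 h2
      rw [← h2]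
      refine Prod.ext rfl (Subtype.ext h1.2.symm)
    · intro h; exact absurd (mem_univ _) h
  · rw [if_neg ho]
    refine sum_eq_zero fun j' _ => ?_
    rw [if_neg]
    rintro ⟨h1, -⟩
    exact ho (List.cons.inj h1).1

lemma sum_nil {M : Type} [AddCommMonoid M] {W : ℕ} (o : Option (Fin r)) (i : Fin (W + 1))
    (hv : ([] : List (Option (Fin r))).length ≤ W ∧ ([] : List (Option (Fin r))).getLast? ≠ some none) (φ : JJ r W → M) :
    ∑ j' : JJ r W, (if ((i, ⟨[], hv⟩) : JJ r W).2.1 = o :: j'.2.1 ∧ ((i, ⟨[], hv⟩) : JJ r W).1 = j'.1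
      then φ j' else 0) = 0 := by
  refine sum_eq_zero fun j' _ => ?_
  rw [if_neg]
  rintro ⟨h1, -⟩
  simp at h1

end Pool.Agent.Y119.ML
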