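import Pool.Agent.Y119.ML.Der
import Pool.Agent.Y119.ML.Ser

/-!
# The G-systems of the hyperlogarithms
-/

set_option autoImplicit false

open PowerSeries Finset Finset.HasAntidiagonal

namespace Pool.Agent.Y119.ML

open Pool.Agent.Y113

variable {r : ℕ} (α : Fin r → ℤ)

lemma ps_X : ps Polynomial.X = X := by simp [ps]

lemma Bd_lin (a : ℤ) (B : ℝ) (h1 : 1 ≤ B) (ha : |(a : ℝ)| ≤ B) : Bd 1 B (1 - Polynomial.C a * Polynomial.X) := by
  refine ⟨?_, fun l => ?_⟩
  · refine (Polynomial.natDegree_sub_le _ _).trans (max_le (by simp) ?_)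
    exact (Polynomial.natDegree_C_mul_le _ _).trans Polynomial.natDegree_X_le
  · rw [Polynomial.coeff_sub, Polynomial.coeff_one, Polynomial.coeff_C_mul, Polynomial.coeff_X]
    rcases l with _ | _ | l
    · simpa using h1
    · simpa using ha
    · simp; linarith

/-- the denominator of the system -/
noncomputable def TG (g : ℕ) : Polynomial ℤ :=
  Polynomial.X * ((1 - Polynomial.C (g : ℤ) * Polynomial.X) * ∏ a, (1 - Polynomial.C ((g : ℤ) + α a) * Polynomial.X))

lemma le_base (c : ℤ) (g : ℕ) : |(((g : ℤ) + c : ℤ) : ℝ)| ≤ ((g : ℝ) + 2) ^ (c.natAbs + 1) := by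
  have hg : (0 : ℝ) ≤ g := by positivity
  have h1 : |((c : ℤ) : ℝ)| + 1 ≤ 2 ^ c.natAbs := by
    have := succ_le_two_pow c.natAbs
    rwa [Nat.cast_natAbs, Int.cast_abs] at this
  have h2 : (2 : ℝ) ^ c.natAbs ≤ ((g : ℝ) + 2) ^ c.natAbs := pow_le_pow_left₀ (by norm_num) (by linarith) _
  push_cast
  calc |(g : ℝ) + c| ≤ |(g : ℝ)| + |(c : ℝ)| := abs_add_le _ _
    _ = g + |(c : ℝ)| := by rw [abs_of_nonneg hg]
    _ ≤ (|(c : ℝ)| + 1) * (g + 2) := by
      have := abs_nonneg (c : ℝ)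
      nlinarith
    _ ≤ ((g : ℝ) + 2) ^ c.natAbs * (g + 2) := by
      refine mul_le_mul_of_nonneg_right (h1.trans h2) (by linarith)
    _ = _ := by rw [pow_succ]

/-- a common exponent -/
def ex (α : Fin r → ℤ) : ℕ := (∑ a, (α a).natAbs) + 1

lemma ex_le (a : Fin r) : (α a).natAbs + 1 ≤ ex α := by
  unfold ex
  have := single_le_sum (f := fun a => (α a).natAbs) (fun _ _ => Nat.zero_le _) (mem_univ a)
  omega

lemma Bd_one (B : ℝ) (hB : 1 ≤ B) : Bd 0 B 1 := Bd.one.mono le_rfl hB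

lemma Bd_X (B : ℝ) (hB : 1 ≤ B) : Bd 1 B Polynomial.X := by
  refine ⟨Polynomial.natDegree_X_le, fun l => ?_⟩
  rw [Polynomial.coeff_X]
  split_ifs
  · simpa using hB
  · simp; linarith

lemma Bd_prod {B : ℝ} (hB : 1 ≤ B) (s : Finset (Fin r)) (v : Fin r → ℤ) (hv : ∀ a, |((v a : ℤ) : ℝ)| ≤ B) :
    Bd s.card ((2 * B) ^ s.card) (∏ a ∈ s, (1 - Polynomial.C (v a) * Polynomial.X)) := by
  classical
  induction s using Finset.induction_on with
  | empty => simpa using Bd.one
  | insert a s ha ih =>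
    rw [prod_insert ha, card_insert_of_notMem ha]
    refine ((Bd_lin (v a) B hB (hv a)).mul ih).mono (by omega) (le_of_eq ?_)
    rw [pow_succ]
    push_cast
    ring

/-- the bounds for the polynomials -/
lemma Bd_all (g : ℕ) : ∀ s : Finset (Fin r), Bd r (((g : ℝ) + 2) ^ ((ex α + 1) * r))
      (∏ a ∈ s, (1 - Polynomial.C ((g : ℤ) + α a) * Polynomial.X)) := by
  intro s
  have hg1 := one_le_base g
  have h1 := Bd_prod (B := ((g : ℝ) + 2) ^ ex α) (one_le_pow₀ hg1) s (fun a => (g : ℤ) + α a)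
    (fun a => (le_base (α a) g).trans (base_mono hg1 (ex_le α a)))
  have hs : s.card ≤ r := (card_le_univ s).trans (by simp)
  refine h1.mono hs ((pow_le_pow_right₀ ?_ hs).trans (pow_base g _ _))
  have : (1 : ℝ) ≤ ((g : ℝ) + 2) ^ ex α := one_le_pow₀ hg1
  linarith

lemma Bd_TG : ∃ E : ℕ, ∀ g : ℕ, Bd (r + 2) (((g : ℝ) + 2) ^ E) (TG α g) := by
  refine ⟨2 + ((ex α + 1) * r + 1), fun g => ?_⟩
  have hg1 := one_le_base g
  have h1 := Bd_all α g univ
  have h2 : Bd 1 ((g : ℝ) + 2) (1 - Polynomial.C (g : ℤ) * Polynomial.X) :=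
    Bd_lin _ _ hg1 (by simp)
  have h3 := (Bd_X 1 le_rfl).mul (h2.mul h1)
  refine h3.mono (by omega) ?_
  have h4 : (2 : ℝ) ≤ (g : ℝ) + 2 := by linarith [show (0 : ℝ) ≤ g by positivity]
  push_cast
  calc (1 + 1) * (1 * ((1 + 1) * (((g : ℝ) + 2) * ((g : ℝ) + 2) ^ ((ex α + 1) * r))))
      = 2 * 2 * ((g : ℝ) + 2) ^ ((ex α + 1) * r + 1) := by ring
    _ ≤ ((g : ℝ) + 2) * ((g : ℝ) + 2) * ((g : ℝ) + 2) ^ ((ex α + 1) * r + 1) := by gcongr
    _ = _ := by ring

/-- the polynomial attached to a letter -/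
noncomputable def RR (g : ℕ) : Option (Fin r) → Polynomial ℤ
  | none => ∏ a, (1 - Polynomial.C ((g : ℤ) + α a) * Polynomial.X)
  | some a => Polynomial.X * ∏ b ∈ univ.erase a, (1 - Polynomial.C ((g : ℤ) + α b) * Polynomial.X)

/-- the polynomial attached to the logarithm -/
noncomputable def RL (g : ℕ) : Polynomial ℤ := Polynomial.C (-(g : ℤ)) * (Polynomial.X * RR α g none)

lemma Bd_RR : ∃ E : ℕ, ∀ g : ℕ, (∀ o, Bd (r + 2) (((g : ℝ) + 2) ^ E) (RR α g o)) ∧
    Bd (r + 2) (((g : ℝ) + 2) ^ E) (RL α g) := by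
  refine ⟨2 + (ex α + 1) * r, fun g => ?_⟩
  have hg1 := one_le_base g
  have h4 : (2 : ℝ) ≤ (g : ℝ) + 2 := by linarith [show (0 : ℝ) ≤ g by positivity]
  have h5 : ∀ s : Finset (Fin r), Bd (r + 2) (((g : ℝ) + 2) * ((g : ℝ) + 2) ^ ((ex α + 1) * r))
      (Polynomial.X * ∏ b ∈ s, (1 - Polynomial.C ((g : ℤ) + α b) * Polynomial.X)) := by
    intro s
    refine ((Bd_X 1 le_rfl).mul (Bd_all α g s)).mono (by omega) ?_
    push_cast
    calc (1 + 1) * (1 * ((g : ℝ) + 2) ^ ((ex α + 1) * r)) = 2 * ((g : ℝ) + 2) ^ ((ex α + 1) * r) := by ring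
      _ ≤ _ := by gcongr
  refine ⟨?_, ?_⟩
  · rintro (_ | a)
    · exact (Bd_all α g univ).mono (by omega) (base_mono hg1 (by omega))
    · refine (h5 _).mono le_rfl ?_
      rw [← pow_succ']
      exact base_mono hg1 (by omega)
  · refine ((h5 univ).C_mul (c := -(g : ℤ)) (B := (g : ℝ) + 2) ?_).mono le_rfl (le_of_eq (by ring))
    push_cast
    rw [abs_neg, abs_of_nonneg (by positivity)]
    linarith

lemma ps_lin (n : ℤ) : ps (1 - Polynomial.C n * Polynomial.X) = 1 - (n : ℚ⟦X⟧) * X := by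
  rw [ps_sub', ps_one, ps_mul, ps_C, ps_X]

lemma ps_prod {σ : Type*} (s : Finset σ) (f : σ → Polynomial ℤ) : ps (∏ i ∈ s, f i) = ∏ i ∈ s, ps (f i) := by
  unfold ps
  rw [Polynomial.map_prod]
  exact map_prod (Polynomial.coeToPowerSeries.ringHom (R := ℚ)) _ _

lemma TG_lg (g : ℕ) : ps (TG α g) * d⁄dX ℚ (lg g) = ps (RL α g) := by
  have h1 := theta_lg g
  have h2 := geo_mul g
  rw [TG, ps_mul, ps_mul, ps_X, ps_lin, RL, ps_mul, ps_mul, ps_X, ps_C, RR]
  set P := ps (∏ a, (1 - Polynomial.C ((g : ℤ) + α a) * Polynomial.X))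
  push_cast at h1 h2 ⊢
  linear_combination ((1 - (g : ℚ⟦X⟧) * X) * P) * h1 - (g : ℚ⟦X⟧) * X * P * h2

lemma TG_LL (g : ℕ) {o : Option (Fin r)} {w : List (Option (Fin r))} (h : adm (o :: w)) :
    ps (TG α g) * d⁄dX ℚ (LL α g (o :: w)) = ps (RR α g o) * LL α g w := by
  have h1 := theta_LL α g h
  have h2 := geo_mul g
  rw [TG, ps_mul, ps_mul, ps_X, ps_lin]
  have h3 : X * ((1 - (((g : ℤ)) : ℚ⟦X⟧) * X) * ps (∏ a, (1 - Polynomial.C ((g : ℤ) + α a) * Polynomial.X))) *
      d⁄dX ℚ (LL α g (o :: w)) = ((1 - (((g : ℤ)) : ℚ⟦X⟧) * X) * UU α g o *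
      ps (∏ a, (1 - Polynomial.C ((g : ℤ) + α a) * Polynomial.X))) * LL α g w := by
    linear_combination ((1 - (((g : ℤ)) : ℚ⟦X⟧) * X) *
      ps (∏ a, (1 - Polynomial.C ((g : ℤ) + α a) * Polynomial.X))) * h1
  rw [h3]
  congr 1
  rcases o with _ | a
  · rw [RR]
    show (1 - (((g : ℤ)) : ℚ⟦X⟧) * X) * geo g * _ = _
    rw [h2, one_mul]
  · rw [RR, ← mul_prod_erase univ _ (mem_univ a), ps_mul, ps_mul, ps_X, ps_lin]
    have h4 := geo_mul ((g : ℤ) + α a)
    show (1 - (((g : ℤ)) : ℚ⟦X⟧) * X) * (X * geo g * geo (g + α a)) * _ = _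
    set P := ps (∏ b ∈ univ.erase a, (1 - Polynomial.C ((g : ℤ) + α b) * Polynomial.X))
    linear_combination (X * P * geo (g + α a) * (1 - (((g : ℤ) + α a : ℤ) : ℚ⟦X⟧) * X)) * h2 + X * P * h4

lemma hd_one {s : ℕ} (hs : 0 < s) : hd s (1 : ℚ⟦X⟧) = 0 := by
  ext m
  rw [coeff_hd, coeff_one, if_neg (by omega)]
  simp

/-- the constant function -/
lemma DerP_one {ι : Type} [Fintype ι] [DecidableEq ι] {q : ℕ} {C : ℝ} {T : Polynomial ℤ} {y : ι → ℚ⟦X⟧} (hC : 1 ≤ C)
    (i₀ : ι) (h : y i₀ = 1) : DerP q C T y (y i₀) := by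
  intro k
  have h1 : (1 : ℝ) ≤ C ^ (k + 1) := one_le_pow₀ hC
  refine ⟨1, one_pos, by simpa using h1, fun s _ => ?_⟩
  refine ⟨fun j => if s = 0 ∧ j = i₀ then 1 else 0, fun j => ?_, ?_⟩
  · beta_reduce
    split_ifs
    · exact Bd.one.mono (Nat.zero_le _) h1
    · refine ⟨Polynomial.natDegree_zero.le.trans (Nat.zero_le _), fun l => ?_⟩
      simp only [Polynomial.coeff_zero, Int.cast_zero, abs_zero]
      linarith
  · rcases Nat.eq_zero_or_pos s with rfl | hs
    · rw [sum_eq_single i₀]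
      · simp [hd_zero, ps_one]
      · intro j _ hj
        simp [hj, ps_zero]
      · intro h; exact absurd (mem_univ _) h
    · rw [h, hd_one hs, mul_zero, mul_zero]
      symm
      refine sum_eq_zero fun j _ => ?_
      beta_reduce
      rw [if_neg (by omega), ps_zero, zero_mul]

/-- Galochkin's condition for the family -/
theorem ff_der_cond (W : ℕ) : ∀ n : ℕ, ∃ E : ℕ, ∀ (g : ℕ) (j : JJ r W), dg j ≤ n →
    DerP (r + 2) (((g : ℝ) + 2) ^ E) (TG α g) (fun j : JJ r W => ff α g j) (ff α g j) := by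
  obtain ⟨ET, hET⟩ := Bd_TG α
  obtain ⟨ER, hER⟩ := Bd_RR α
  obtain ⟨E₁, hE₁⟩ := der_int (r + 2) (Fintype.card (JJ r W))
  have hone : ∀ (E g : ℕ), DerP (r + 2) (((g : ℝ) + 2) ^ E) (TG α g) (fun j : JJ r W => ff α g j)
      (ff α g (j0 r W)) := by
    intro E g
    exact DerP_one (y := fun j : JJ r W => ff α g j) (one_le_pow₀ (one_le_base g)) (j0 r W) (by simp [ff, j0, LL])
  intro n
  induction n with
  | zero =>
    refine ⟨0, fun g j hj => ?_⟩
    rw [(dg_eq_zero j).1 (Nat.le_zero.1 hj)]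
    exact hone 0 g
  | succ n ih =>
    obtain ⟨En, hEn⟩ := ih
    -- the bounds
    set e := max (max ET (ER + W)) En with he
    refine ⟨(e + 1) * E₁ + e, fun g j hj => ?_⟩
    have hg1 := one_le_base g
    have hg2 : (2 : ℝ) ≤ (g : ℝ) + 2 := by linarith [show (0 : ℝ) ≤ g by positivity]
    by_cases hj0 : j = j0 r W
    · rw [hj0]; exact hone _ g
    have hlow : ∀ j' : JJ r W, dg j' ≤ n →
        DerP (r + 2) (((g : ℝ) + 2) ^ e) (TG α g) (fun j : JJ r W => ff α g j) (ff α g j') := fun j' hj' =>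
      (hEn g j' hj').mono (by positivity) (base_mono hg1 (le_max_right _ _))
    obtain ⟨i, w, hw⟩ := j
    -- a set of lower functions and the coefficients
    have key : ∃ (s : Finset (JJ r W)) (R : JJ r W → Polynomial ℤ),
        (∀ j' ∈ s, dg j' ≤ n) ∧ (∀ j' ∈ s, Bd (r + 2) (((g : ℝ) + 2) ^ e) (R j')) ∧
        ps (TG α g) * d⁄dX ℚ (ff α g ((i, ⟨w, hw⟩) : JJ r W)) = ∑ j' ∈ s, ps (R j') * ff α g j' := by
      have hRL : ∀ m : ℕ, m ≤ W → Bd (r + 2) (((g : ℝ) + 2) ^ e) (Polynomial.C (m : ℤ) * RL α g) := by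
        intro m hm
        refine ((hER g).2.C_mul (c := (m : ℤ)) (B := ((g : ℝ) + 2) ^ W) ?_).mono le_rfl ?_
        · rw [Int.cast_natCast, abs_of_nonneg (Nat.cast_nonneg _)]
          calc (m : ℝ) ≤ W := by exact_mod_cast hm
            _ ≤ 2 ^ W := (le_add_of_nonneg_right zero_le_one).trans (succ_le_two_pow W)
            _ ≤ _ := pow_le_pow_left₀ (by norm_num) hg2 _
        · rw [← pow_add]
          exact base_mono hg1 (by omega)
      have hRR : ∀ o, Bd (r + 2) (((g : ℝ) + 2) ^ e) (RR α g o) := fun o =>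
        ((hER g).1 o).mono le_rfl (base_mono hg1 (by omega))
      have hff : ps (TG α g) * d⁄dX ℚ (ff α g ((i, ⟨w, hw⟩) : JJ r W)) =
          ((i : ℕ) : ℚ⟦X⟧) * ps (RL α g) * (lg g ^ ((i : ℕ) - 1) * LL α g w) +
          lg g ^ (i : ℕ) * (ps (TG α g) * d⁄dX ℚ (LL α g w)) := by
        have h1 := TG_lg α g
        rw [ff, Derivation.leibniz, smul_eq_mul, smul_eq_mul]
        simp only
        rw [Derivation.leibniz_pow, smul_eq_mul, nsmul_eq_mul]
        linear_combination (((i : ℕ) : ℚ⟦X⟧) * (lg g ^ ((i : ℕ) - 1) * LL α g w)) * h1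
      rcases Nat.eq_zero_or_pos (i : ℕ) with hi | hi
      · -- no logarithm
        cases w with
        | nil =>
          exfalso
          apply hj0
          have : i = 0 := Fin.ext hi
          rw [this]; rfl
        | cons o v =>
          have hv : v.length ≤ W ∧ v.getLast? ≠ some none := ⟨by have := hw.1; simp at this; omega, adm_tail hw.2⟩
          refine ⟨{(i, ⟨v, hv⟩)}, fun _ => RR α g o, ?_, fun _ _ => hRR o, ?_⟩
          · intro j' hj'
            rw [mem_singleton] at hj'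
            rw [hj']
            simp only [dg, List.length_cons] at hj ⊢
            omega
          · rw [hff, hi, TG_LL α g hw.2, sum_singleton, ff]
            simp only [hi]
            push_cast
            ring
      · have hi1 : (i : ℕ) - 1 < W + 1 := by omega
        have hiW : (i : ℕ) ≤ W := by omega
        cases w with
        | nil =>
          refine ⟨{(⟨(i : ℕ) - 1, hi1⟩, ⟨[], hw⟩)}, fun _ => Polynomial.C ((i : ℕ) : ℤ) * RL α g, ?_,
            fun _ _ => hRL _ hiW, ?_⟩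
          · intro j' hj'
            rw [mem_singleton] at hj'
            rw [hj']
            simp only [dg, List.length_nil] at hj ⊢
            omega
          · rw [hff, sum_singleton, ps_mul, ps_C, ff]
            simp [LL]
        | cons o v =>
          have hv : v.length ≤ W ∧ v.getLast? ≠ some none := ⟨by have := hw.1; simp at this; omega, adm_tail hw.2⟩
          have hne : ((⟨(i : ℕ) - 1, hi1⟩, ⟨o :: v, hw⟩) : JJ r W) ≠ (i, ⟨v, hv⟩) := by
            intro h
            have := congrArg (fun x : JJ r W => (x.1 : ℕ)) h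
            simp only at this
            omega
          refine ⟨{(⟨(i : ℕ) - 1, hi1⟩, ⟨o :: v, hw⟩), (i, ⟨v, hv⟩)},
            fun j' => if j' = (⟨(i : ℕ) - 1, hi1⟩, ⟨o :: v, hw⟩) then Polynomial.C ((i : ℕ) : ℤ) * RL α g else
              RR α g o, ?_, ?_, ?_⟩
          · intro j' hj'
            rw [mem_insert, mem_singleton] at hj'
            rcases hj' with rfl | rfl
            · simp only [dg, List.length_cons] at hj ⊢
              omega
            · simp only [dg, List.length_cons] at hj ⊢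
              omega
          · intro j' _
            beta_reduce
            split_ifs
            · exact hRL _ hiW
            · exact hRR o
          · rw [hff, TG_LL α g hw.2, sum_pair hne]
            beta_reduce
            rw [if_pos rfl, if_neg hne.symm, ps_mul, ps_C, ff, ff]
            simp only
            push_cast
            ring
    obtain ⟨s, R, h1, h2, h3⟩ := key
    have h4 := hE₁ (JJ r W) (((g : ℝ) + 2) ^ e) (TG α g) (fun j : JJ r W => ff α g j) s (i, ⟨w, hw⟩) R le_rfl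
      (one_le_pow₀ hg1) ((hET g).mono le_rfl (base_mono hg1 (by omega))) h2 (fun j' hj' => hlow j' (h1 j' hj')) h3
    exact h4.mono (by positivity) ((pow_base g _ _).trans (base_mono hg1 (by omega)))

end Pool.Agent.Y119.ML
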