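import Pool.Agent.Y119.ML.Fam

/-!
# The G-systems of the hyperlogarithms: sizes, denominators, products
-/

set_option autoImplicit false

open PowerSeries Finset Finset.HasAntidiagonal

namespace Pool.Agent.Y119.ML

open Pool.Agent.Y113

lemma SDp_In {A : ℝ} {f : ℚ⟦X⟧} (h : SDp A f) : SDp (2 ^ 8 * A) (In f) := by
  have hA := h.one_le
  have hA0 : 0 < A := by linarith
  refine ⟨fun m => ?_, fun m => ?_⟩
  · rw [In, coeff_mk]
    push_cast
    rw [abs_div]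
    have h1 : |((coeff m f : ℚ) : ℝ)| / |(m : ℝ)| ≤ |((coeff m f : ℚ) : ℝ)| := by
      rcases Nat.eq_zero_or_pos m with rfl | hm
      · simp
      · have : (1 : ℝ) ≤ |(m : ℝ)| := by
          rw [abs_of_nonneg (Nat.cast_nonneg _)]; exact_mod_cast hm
        exact div_le_self (abs_nonneg _) this
    refine (h1.trans (h.1 m)).trans (pow_le_pow_left₀ hA0.le ?_ _)
    nlinarith
  · obtain ⟨d, hd0, hd, hd'⟩ := h.2 m
    refine ⟨Nat.lcmUpto m * d, Nat.mul_pos (Nat.lcmUpto_pos m) hd0, ?_, fun j hj => ?_⟩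
    · push_cast
      rw [mul_pow]
      refine mul_le_mul ((lcm_bound m).trans ?_) hd (by positivity) (by positivity)
      exact pow_le_pow_right₀ (by norm_num) (by omega)
    · obtain ⟨a, ha⟩ := hd' j hj
      rw [In, coeff_mk]
      rcases Nat.eq_zero_or_pos j with rfl | hj0
      · exact ⟨0, by simp⟩
      · obtain ⟨b, hb⟩ := lcm_div hj0 hj
        refine ⟨b * a, ?_⟩
        push_cast
        rw [← hb, ← ha]
        ring

lemma SDE.In {f : ℕ → ℚ⟦X⟧} (h : SDE f) : SDE (fun g => ML.In (f g)) := by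
  obtain ⟨E, hE⟩ := h
  refine ⟨8 + E, fun g => (SDp_In (hE g)).mono ?_⟩
  rw [pow_add]
  exact mul_le_mul_of_nonneg_right (two_pow_le g 8) (by positivity)

lemma SDE_geo (c : ℤ) : SDE (fun g => geo ((g : ℤ) + c)) := by
  refine ⟨c.natAbs + 1, fun g => ?_⟩
  have hg1 := one_le_base g
  have h1 : (1 : ℝ) ≤ ((g : ℝ) + 2) ^ (c.natAbs + 1) := one_le_pow₀ hg1
  refine ⟨fun m => ?_, fun m => ⟨1, one_pos, by simpa using one_le_pow₀ h1, fun j _ => ⟨((g : ℤ) + c) ^ j, ?_⟩⟩⟩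
  · beta_reduce
    rw [geo, coeff_mk]
    have h2 := le_base c g
    push_cast at h2 ⊢
    rw [abs_pow]
    exact (pow_le_pow_left₀ (abs_nonneg _) h2 _).trans (pow_le_pow_right₀ h1 (by omega))
  · beta_reduce
    rw [geo, coeff_mk]
    push_cast
    ring

lemma SDE_geo' : SDE (fun g => geo (g : ℤ)) := by
  have := SDE_geo 0
  simpa using this

lemma SDE_X : SDE (fun _ => (X : ℚ⟦X⟧)) := SDE.of_const (n := 0) (by simpa using SDp.X)
lemma SDE_one : SDE (fun _ => (1 : ℚ⟦X⟧)) := SDE.of_const (n := 0) (by simpa using SDp.one)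

variable {r : ℕ} (α : Fin r → ℤ)

lemma SDE_UU (o : Option (Fin r)) : SDE (fun g => UU α g o) := by
  rcases o with _ | a
  · exact SDE_geo'
  · exact (SDE_X.mul SDE_geo').mul (SDE_geo (α a))

lemma SDE_LL (w : List (Option (Fin r))) : SDE (fun g => LL α g w) := by
  induction w with
  | nil => exact SDE_one
  | cons o w ih => exact SDE.In ((SDE_UU α o).mul ih)

lemma SDE_pow {f : ℕ → ℚ⟦X⟧} (h : SDE f) (n : ℕ) : SDE (fun g => f g ^ n) := by
  induction n with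
  | zero => simpa using SDE_one
  | succ n ih =>
    have := ih.mul h
    simpa [pow_succ] using this

lemma SDE_ff {W : ℕ} (j : JJ r W) : SDE (fun g => ff α g j) := (SDE_pow SDE.lg _).mul (SDE_LL α _)

/-- a finite family with common denominators -/
lemma SDE_fam {ι : Type} [Fintype ι] (f : ℕ → ι → ℚ⟦X⟧) (h : ∀ i, SDE (fun g => f g i)) : ∃ E : ℕ, ∀ g : ℕ,
    (∀ i m, |((coeff m (f g i) : ℚ) : ℝ)| ≤ (((g : ℝ) + 2) ^ E) ^ (m + 1)) ∧
    (∀ m, ∃ d : ℕ, 0 < d ∧ (d : ℝ) ≤ (((g : ℝ) + 2) ^ E) ^ (m + 1) ∧ ∀ i, ∀ j ≤ m, ∃ a : ℤ,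
      (d : ℚ) * coeff j (f g i) = a) := by
  classical
  choose E hE using h
  refine ⟨∑ i, E i, fun g => ⟨fun i m => ?_, fun m => ?_⟩⟩
  · have hg1 := one_le_base g
    refine ((hE i g).1 m).trans (pow_le_pow_left₀ (by positivity) (base_mono hg1 ?_) _)
    exact single_le_sum (fun _ _ => Nat.zero_le _) (mem_univ i)
  · have h1 : ∀ i, ∃ d : ℕ, 0 < d ∧ (d : ℝ) ≤ (((g : ℝ) + 2) ^ E i) ^ (m + 1) ∧ ∀ j ≤ m, ∃ a : ℤ,
        (d : ℚ) * coeff j (f g i) = a := fun i => (hE i g).2 m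
    choose d hd0 hd1 hd2 using h1
    refine ⟨∏ i, d i, prod_pos fun i _ => hd0 i, ?_, fun i j hj => ?_⟩
    · push_cast
      calc ∏ i, (d i : ℝ) ≤ ∏ i, (((g : ℝ) + 2) ^ E i) ^ (m + 1) :=
            prod_le_prod (fun _ _ => by positivity) (fun i _ => hd1 i)
        _ = _ := by rw [prod_pow, prod_pow_eq_pow_sum]
    · obtain ⟨a, ha⟩ := hd2 i j hj
      refine ⟨(∏ i' ∈ univ.erase i, d i' : ℕ) * a, ?_⟩
      rw [← mul_prod_erase univ d (mem_univ i)]
      push_cast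
      rw [← ha]
      push_cast
      ring

/-- the G-system of one shift -/
theorem gsys_ff (W : ℕ) : ∃ E : ℕ, ∀ g : ℕ,
    GSys (r + 2) (((g : ℝ) + 2) ^ E) (TG α g) (fun j : JJ r W => ff α g j) := by
  obtain ⟨E₁, hE₁⟩ := SDE_fam (fun g (j : JJ r W) => ff α g j) (fun j => SDE_ff α j)
  obtain ⟨ET, hET⟩ := Bd_TG α
  obtain ⟨E₂, hE₂⟩ := ff_der_cond α W (∑ j : JJ r W, dg j)
  set N := Fintype.card (JJ r W) with hN
  refine ⟨E₁ + ET + E₂ * (N + 1), fun g => ?_⟩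
  have hg1 := one_le_base g
  refine ⟨one_le_pow₀ hg1, (hET g).1, fun l => ((hET g).2 l).trans (base_mono hg1 (by omega)), fun i m => ?_,
    fun m => ?_, fun k => ?_⟩
  · exact ((hE₁ g).1 i m).trans (pow_le_pow_left₀ (by positivity) (base_mono hg1 (by omega)) _)
  · obtain ⟨d, h1, h2, h3⟩ := (hE₁ g).2 m
    exact ⟨d, h1, h2.trans (pow_le_pow_left₀ (by positivity) (base_mono hg1 (by omega)) _), h3⟩
  · obtain ⟨d, h1, h2, h3⟩ := common (q := r + 2) (C := ((g : ℝ) + 2) ^ E₂) (T := TG α g)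
      (y := fun j : JJ r W => ff α g j) (one_le_pow₀ hg1) N le_rfl univ (fun j _ => hE₂ g j
        (single_le_sum (f := fun j : JJ r W => dg j) (fun _ _ => Nat.zero_le _) (mem_univ j))) k
    refine ⟨d, h1, h2.trans (pow_le_pow_left₀ (by positivity) ?_ _), fun s hs => ?_⟩
    · rw [← pow_mul]
      exact base_mono hg1 (by rw [Nat.mul_add]; omega)
    · obtain ⟨G, hG⟩ := h3 s hs
      refine ⟨G, fun i j => ((hG i (mem_univ i)).1 j).1, fun i j l => (((hG i (mem_univ i)).1 j).2 l).trans ?_,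
        fun i => (hG i (mem_univ i)).2⟩
      refine pow_le_pow_left₀ (by positivity) ?_ _
      rw [← pow_mul]
      exact base_mono hg1 (by omega)

/-- products over several shifts -/
theorem gsys_prod {J : Type} [Fintype J] {q₀ E₀ : ℕ} (T : ℕ → Polynomial ℤ) (y : ℕ → J → ℚ⟦X⟧)
    (h : ∀ g : ℕ, GSys q₀ (((g : ℝ) + 2) ^ E₀) (T g) (y g)) (k : ℕ) : ∃ q E : ℕ, ∀ (H : ℕ) (g : Fin k → ℕ),
    (∀ l, g l ≤ H) → GSys q (((H : ℝ) + 2) ^ E) (∏ l, T (g l)) (fun b : Fin k → J => ∏ l, y (g l) (b l)) := by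
  induction k with
  | zero =>
    refine ⟨0, 0, fun H g _ => ?_⟩
    have h1 : GSys 0 (1 : ℝ) 1 (fun _ : Fin 0 → J => (1 : ℚ⟦X⟧)) := by
      refine GSys.const le_rfl (by simp) fun l => ?_
      rw [Polynomial.coeff_one]
      split_ifs <;> simp
    simpa using h1
  | succ k ih =>
    obtain ⟨q, E, hE⟩ := ih
    obtain ⟨E₁, hE₁⟩ := t_enl q₀ q
    obtain ⟨E₂, hE₂⟩ := t_enl q q₀
    obtain ⟨E₃, hE₃⟩ := t_prod (q + q₀)
    set E' := max E₀ E with hE'
    set E'' := (E' + 1) * (max E₁ E₂) with hE''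
    refine ⟨q + q₀, (E'' + 1) * E₃, fun H g hg => ?_⟩
    have hg1 := one_le_base H
    have hgH : ((g 0 : ℕ) : ℝ) + 2 ≤ (H : ℝ) + 2 := by
      have : ((g 0 : ℕ) : ℝ) ≤ H := by exact_mod_cast hg 0
      linarith
    have h1 : GSys q₀ (((H : ℝ) + 2) ^ E') (T (g 0)) (y (g 0)) := by
      refine (h (g 0)).mono le_rfl ?_
      exact (pow_le_pow_left₀ (by positivity) hgH _).trans (base_mono hg1 (le_max_left _ _))
    have h2 : GSys q (((H : ℝ) + 2) ^ E') (∏ l : Fin k, T (g l.succ))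
        (fun b : Fin k → J => ∏ l, y (g l.succ) (b l)) :=
      (hE H _ fun l => hg l.succ).mono le_rfl (base_mono hg1 (le_max_right _ _))
    have h3 := hE₁ _ _ _ (∏ l : Fin k, T (g l.succ)) _ h1 h2.degT h2.sizeT
    have h4 := hE₂ _ _ _ (T (g 0)) _ h2 h1.degT h1.sizeT
    have hE1 : (2 * ((H : ℝ) + 2) ^ E') ^ E₁ ≤ ((H : ℝ) + 2) ^ E'' := by
      refine (pow_base H _ _).trans (base_mono hg1 ?_)
      exact Nat.mul_le_mul_left _ (le_max_left _ _)
    have hE2 : (2 * ((H : ℝ) + 2) ^ E') ^ E₂ ≤ ((H : ℝ) + 2) ^ E'' := by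
      refine (pow_base H _ _).trans (base_mono hg1 ?_)
      exact Nat.mul_le_mul_left _ (le_max_right _ _)
    have hPT : ∏ l, T (g l) = T (g 0) * ∏ l : Fin k, T (g l.succ) := Fin.prod_univ_succ _
    have h5 : GSys (q + q₀) (((H : ℝ) + 2) ^ E'') (∏ l, T (g l)) (y (g 0)) := by
      rw [hPT]
      exact h3.mono (by omega) hE1
    have h6 : GSys (q + q₀) (((H : ℝ) + 2) ^ E'') (∏ l, T (g l)) (fun b : Fin k → J => ∏ l, y (g l.succ) (b l)) := by
      rw [hPT, mul_comm]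
      exact h4.mono le_rfl hE2
    have h7 := (hE₃ _ _ _ _ _ _ h5 h6).mono le_rfl (pow_base H _ _)
    have h8 := h7.reindex (Fin.consEquiv fun _ => J).symm
    have h9 : (fun b : Fin (k + 1) → J => ∏ l, y (g l) (b l)) = fun j =>
        y (g 0) ((Fin.consEquiv fun _ => J).symm j).1 *
          ∏ l : Fin k, y (g l.succ) (((Fin.consEquiv fun _ => J).symm j).2 l) := by
      funext b
      rw [Fin.prod_univ_succ]
      rfl
    rw [h9]
    exact h8

end Pool.Agent.Y119.ML
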