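import Pool.Agent.Y119.ML.Win

/-!
# Hyperlogarithms at the reciprocals of the integers (after helper120)
-/

set_option autoImplicit false

open PowerSeries Pool.Agent.Y113 Pool.Agent.Y120.GF

namespace Pool.Agent.Y119.ML

variable {r : ℕ} (α : Fin r → ℤ)

lemma S_one (x : ℝ) : S 1 x = 1 := by
  unfold S
  rw [tsum_eq_single 0]
  · simp
  · intro m hm
    rw [coeff_one, if_neg hm]; simp

lemma ff_j0 (g W : ℕ) : ff α g (j0 r W) = 1 := by simp [ff, j0, LL]

lemma sft_le (o : Option (Fin r)) : (sft α o).natAbs + 1 ≤ ex α := by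
  rcases o with _ | a
  · simp [sft, ex]
  · exact ex_le α a

lemma sft_inj (hα : Function.Injective α) (h0 : ∀ a, α a ≠ 0) : Function.Injective (sft α) := by
  rintro (_ | a) (_ | b) h
  · rfl
  · exact absurd h.symm (h0 b)
  · exact absurd h (h0 a)
  · exact congrArg some (hα h)

/-- separated shifts -/
def SepA (k : ℕ) (g : Fin k → ℕ) : Prop := (∀ l, 1 ≤ g l) ∧
  (Function.Injective fun p : Fin k × Option (Fin r) => (g p.1 : ℤ) + sft α p.2) ∧ ∀ l o, (g l : ℤ) + sft α o ≠ 0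

lemma sep_of (hα : Function.Injective α) (h0 : ∀ a, α a ≠ 0) (k : ℕ) (g : Fin k → ℕ) (h1 : ∀ l, 2 * ex α ≤ g l)
    (h2 : Function.Injective g) (h3 : ∀ l l', g l % (2 * ex α) = g l' % (2 * ex α)) : SepA α k g := by
  have hex : 1 ≤ ex α := by unfold ex; omega
  refine ⟨fun l => by have := h1 l; omega, ?_, fun l o h => ?_⟩
  · rintro ⟨l, o⟩ ⟨l', o'⟩ h
    simp only at h
    have e1 := sft_le α o
    have e2 := sft_le α o'
    have hl : g l = g l' := by
      by_contra hne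
      have e3 := h3 l l'
      have e4 : (g l : ℤ) ≡ g l' [ZMOD (2 * ex α : ℕ)] := by
        exact_mod_cast (show g l ≡ g l' [MOD 2 * ex α] from e3)
      have e5 := e4.dvd
      have e6 : ((2 * ex α : ℕ) : ℤ) ≤ |(g l' : ℤ) - g l| := Int.le_of_dvd (abs_pos.2 (by omega)) ((dvd_abs _ _).2 e5)
      have e7 : |(g l' : ℤ) - g l| ≤ 2 * ex α - 2 := by
        rw [abs_le]
        constructor <;> omega
      push_cast at e6
      omega
    have hll : l = l' := h2 hl
    subst hll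
    have : sft α o = sft α o' := by omega
    rw [sft_inj α hα h0 this]
  · have e1 := sft_le α o
    have e2 := h1 l
    omega

lemma TG_ne (g t : ℕ) (h : g + ex α < t) : Polynomial.aeval (1 / (t : ℝ)) (TG α g) ≠ 0 := by
  have ht : (0 : ℝ) < t := by
    have : 0 < t := by omega
    exact_mod_cast this
  have hlin : ∀ c : ℤ, c.natAbs < t → Polynomial.aeval (1 / (t : ℝ)) (1 - Polynomial.C c * Polynomial.X : Polynomial ℤ) ≠ 0 := by
    intro c hc
    simp only [map_sub, map_one, map_mul, Polynomial.aeval_X, eq_intCast, map_intCast]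
    have h1 : (c : ℝ) < t := by
      have : c < (t : ℤ) := by omega
      exact_mod_cast this
    have h2 : (c : ℝ) * (1 / t) < 1 := by
      rw [mul_one_div, div_lt_one ht]
      exact h1
    linarith
  rw [TG, map_mul, map_mul, map_prod]
  refine mul_ne_zero ?_ (mul_ne_zero ?_ ?_)
  · rw [Polynomial.aeval_X]
    positivity
  · exact hlin _ (by have := ex_le (r := r) α; simp; omega)
  · rw [Finset.prod_ne_zero_iff]
    intro a _
    have := ex_le α a
    exact hlin _ (by omega)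

theorem fam_ff (h0 : ∀ a, α a ≠ 0) (W : ℕ) :
    ∃ E, FamP (fun g => ff α g) (TG α) (r + 2) E (ex α) (j0 r W) (SepA α) := by
  obtain ⟨E, hE⟩ := gsys_ff α (r := r) W
  exact ⟨E, ⟨fun g => ff_j0 α g W, hE, TG_ne α, fun k g hg => ff_indep α h0 g hg.1 hg.2.1 hg.2.2⟩⟩

/-- the numbers `(log t)^e HL_w(1/t)` -/
noncomputable def XX (W t : ℕ) (b : JJ r W) : ℂ := (((Real.log t) ^ (b.1 : ℕ) * HL α b.2.1 (1 / t) : ℝ) : ℂ)

/-- the values of the functions -/
theorem ev_ff (W : ℕ) : ∃ E : ℕ, ∀ g t : ℕ, (g + 2) ^ E ≤ t → ∀ b : JJ r W,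
    ev t (ff α g b) = (Real.log (1 - g / t)) ^ (b.1 : ℕ) * HL α b.2.1 (1 / ((t : ℝ) - g)) := by
  classical
  have h1 : ∀ b : JJ r W, ∃ E : ℕ, ∀ g t : ℕ, (g + 2) ^ E ≤ t →
      ev t (ff α g b) = (Real.log (1 - g / t)) ^ (b.1 : ℕ) * HL α b.2.1 (1 / ((t : ℝ) - g)) := by
    intro b
    obtain ⟨E₁, hE₁⟩ := HL_eq α b.2.1 b.2.2.2
    obtain ⟨E₂, hE₂⟩ := SDE_LL α b.2.1
    obtain ⟨E₃, hE₃⟩ := SDE.lg
    choose E₄ hE₄ using SDE_pow SDE.lg
    refine ⟨E₁ + E₂ + E₃ + (∑ n ∈ Finset.range ((b.1 : ℕ) + 1), E₄ n) + 2, fun g t ht => ?_⟩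
    have hg1 := one_le_base g
    have hg2 : (2 : ℝ) ≤ (g : ℝ) + 2 := by linarith [show (0 : ℝ) ≤ g by positivity]
    have htR : ((g : ℝ) + 2) ^ (E₁ + E₂ + E₃ + (∑ n ∈ Finset.range ((b.1 : ℕ) + 1), E₄ n) + 2) ≤ (t : ℝ) := by
      exact_mod_cast ht
    have ht0 : (0 : ℝ) < t := lt_of_lt_of_le (by positivity) htR
    set x : ℝ := 1 / t with hx
    have hx0 : 0 < x := by positivity
    have hsm : ∀ e : ℕ, e + 2 ≤ E₁ + E₂ + E₃ + (∑ n ∈ Finset.range ((b.1 : ℕ) + 1), E₄ n) + 2 →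
        x * ((g : ℝ) + 2) ^ e < 1 := by
      intro e he
      rw [hx, one_div, inv_mul_lt_iff₀ ht0, mul_one]
      refine lt_of_lt_of_le ?_ htR
      exact pow_lt_pow_right₀ (by linarith) (by omega)
    have hE₄' : ∀ n, n ≤ (b.1 : ℕ) → E₄ n ≤ ∑ n ∈ Finset.range ((b.1 : ℕ) + 1), E₄ n := fun n hn =>
      Finset.single_le_sum (f := E₄) (fun _ _ => Nat.zero_le _) (Finset.mem_range.2 (by omega))
    have hgx : (g : ℝ) * x < 1 := by
      have h2 := hsm 0 (by omega)
      rw [hx, mul_one_div, div_lt_one ht0]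
      have h3 : ((g : ℝ) + 2) ^ 1 ≤ (t : ℝ) := (pow_le_pow_right₀ hg1 (by omega)).trans htR
      rw [pow_one] at h3
      linarith
    have e1 : ∀ n, n ≤ (b.1 : ℕ) → S (lg g ^ n) x = (Real.log (1 - g * x)) ^ n := by
      intro n
      induction n with
      | zero =>
        intro _
        rw [pow_zero, pow_zero, S_one x]
      | succ n ih =>
        intro hn
        rw [pow_succ, S_mul (hE₄ n g) (hE₃ g) hx0 (hsm _ (by have := hE₄' n (by omega); omega)) (hsm _ (by omega)),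
          ih (by omega), S_lg g hx0.le hgx, pow_succ]
    have e2 : S (LL α g b.2.1) x = HL α b.2.1 (1 / ((t : ℝ) - g)) := by
      rw [← hE₁ g x hx0.le (hsm _ (by omega)).le]
      congr 1
      rw [hx]
      field_simp
    rw [ev_eq, ff, S_mul (hE₄ (b.1 : ℕ) g) (hE₂ g) hx0 (hsm _ (by have := hE₄' (b.1 : ℕ) le_rfl; omega)) (hsm _ (by omega)),
      e1 _ le_rfl, e2, hx, mul_one_div]
  choose E hE using h1
  refine ⟨∑ b, E b, fun g t ht b => hE b g t ?_⟩
  exact (Nat.pow_le_pow_right (by omega) (Finset.single_le_sum (f := E) (fun _ _ => Nat.zero_le _) (Finset.mem_univ b))).trans ht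

/-- from `t - g` to the shift `g` -/
theorem bad_shift (W : ℕ) : ∃ E : ℕ, ∀ (V : Submodule ℚ ℂ) (g t : ℕ), (g + 2) ^ E ≤ t →
    Bad V (XX α W (t - g)) →
    Bad (Ext V fun i : Fin (W + 1) => (((Real.log t : ℝ) : ℂ)) ^ (i : ℕ)) fun b : JJ r W => ((ev t (ff α g b) : ℝ) : ℂ) := by
  classical
  obtain ⟨E, hE⟩ := ev_ff α W
  refine ⟨E + 2, fun V g t ht hb => ?_⟩
  have h : g + 1 < t := by
    have h1 : (g + 2) ^ 2 ≤ t := (Nat.pow_le_pow_right (by omega) (by omega)).trans ht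
    nlinarith
  have hEt : (g + 2) ^ E ≤ t := (Nat.pow_le_pow_right (by omega) (by omega)).trans ht
  obtain ⟨v, hvV, hv0, hv⟩ := hb
  have htR : ((g : ℝ) + 1) < t := by exact_mod_cast h
  have hg0 : (0 : ℝ) ≤ g := by positivity
  have ht0 : (0 : ℝ) < t := by linarith
  set ℓ : ℂ := ((Real.log t : ℝ) : ℂ) with hℓ
  set Q : ℂ := ((Real.log (1 - g / t) : ℝ) : ℂ) with hQ
  set L : WI r W → ℂ := fun w => ((HL α w.1 (1 / ((t : ℝ) - g)) : ℝ) : ℂ) with hL
  have hcast : ((t - g : ℕ) : ℝ) = (t : ℝ) - g := by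
    rw [Nat.cast_sub (by omega)]
  have hlog : Real.log ((t - g : ℕ) : ℝ) = Real.log t + Real.log (1 - g / t) := by
    rw [hcast, ← Real.log_mul ht0.ne']
    · congr 1
      field_simp
    · have : (g : ℝ) / t < 1 := by
        rw [div_lt_one ht0]
        linarith
      linarith
  have hX : ∀ (e : Fin (W + 1)) (w : WI r W), XX α W (t - g) (e, w) = (ℓ + Q) ^ (e : ℕ) * L w := by
    intro e w
    rw [XX, hlog, hcast, hℓ, hQ, hL]
    push_cast
    rfl
  have hF : ∀ (e : Fin (W + 1)) (w : WI r W), ((ev t (ff α g (e, w)) : ℝ) : ℂ) = Q ^ (e : ℕ) * L w := by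
    intro e w
    rw [hE g t hEt (e, w), hQ, hL]
    push_cast
    ring
  -- the polynomials
  let p : WI r W → Polynomial ℂ := fun w => ∑ e : Fin (W + 1), Polynomial.C (v (e, w)) * Polynomial.X ^ (e : ℕ)
  have hpc : ∀ w (e : Fin (W + 1)), (p w).coeff (e : ℕ) = v (e, w) := by
    intro w e
    show (∑ e : Fin (W + 1), Polynomial.C (v (e, w)) * Polynomial.X ^ (e : ℕ)).coeff (e : ℕ) = v (e, w)
    rw [Polynomial.finsetSum_coeff, Finset.sum_eq_single e]
    · rw [Polynomial.coeff_C_mul, Polynomial.coeff_X_pow_self, mul_one]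
    · intro e' _ hne
      rw [Polynomial.coeff_C_mul, Polynomial.coeff_X_pow, if_neg, mul_zero]
      intro h
      exact hne (Fin.ext h.symm)
    · intro h
      exact absurd (Finset.mem_univ _) h
  have hpV : ∀ w m, (p w).coeff m ∈ V := by
    intro w m
    show (∑ e : Fin (W + 1), Polynomial.C (v (e, w)) * Polynomial.X ^ (e : ℕ)).coeff m ∈ V
    rw [Polynomial.finsetSum_coeff]
    refine Submodule.sum_mem _ fun e _ => ?_
    rw [Polynomial.coeff_C_mul, Polynomial.coeff_X_pow]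
    split_ifs
    · rw [mul_one]
      exact hvV _
    · rw [mul_zero]
      exact Submodule.zero_mem _
  have hpd : ∀ w, (p w).natDegree ≤ W := by
    intro w
    refine Polynomial.natDegree_sum_le_of_forall_le _ _ fun e _ => ?_
    exact (Polynomial.natDegree_C_mul_X_pow_le _ _).trans (Nat.lt_succ_iff.1 e.2)
  have hpe : ∀ w x, (p w).eval x = ∑ e : Fin (W + 1), v (e, w) * x ^ (e : ℕ) := by
    intro w x
    show (∑ e : Fin (W + 1), Polynomial.C (v (e, w)) * Polynomial.X ^ (e : ℕ)).eval x = _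
    rw [Polynomial.eval_finsetSum]
    simp
  have htd : ∀ w, (Polynomial.taylor ℓ (p w)).natDegree ≤ W := by
    intro w
    rw [Polynomial.natDegree_taylor]
    exact hpd w
  refine ⟨fun b => (Polynomial.taylor ℓ (p b.2)).coeff (b.1 : ℕ), ?_, ?_, ?_⟩
  · rintro ⟨e, w⟩
    simp only
    rw [Polynomial.taylor_coeff]
    have h1 : (Polynomial.hasseDeriv (e : ℕ) (p w)).natDegree < W + 1 :=
      lt_of_le_of_lt (Polynomial.natDegree_hasseDeriv_le _ _) (by have := hpd w; omega)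
    rw [Polynomial.eval_eq_sum_range' h1, Finset.sum_range]
    have h2 : ∑ i : Fin (W + 1), (Polynomial.hasseDeriv (e : ℕ) (p w)).coeff (i : ℕ) * ℓ ^ (i : ℕ) =
        ∑ i : Fin (W + 1), ((((i : ℕ) + e).choose e : ℕ) • (p w).coeff ((i : ℕ) + e)) * ℓ ^ (i : ℕ) := by
      refine Finset.sum_congr rfl fun i _ => ?_
      rw [Polynomial.hasseDeriv_coeff, nsmul_eq_mul]
    rw [h2]
    exact mem_Ext V _ fun i => Submodule.smul_of_tower_mem _ _ (hpV _ _)
  · intro h0
    apply hv0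
    have h1 : ∀ w, p w = 0 := by
      intro w
      have h2 : Polynomial.taylor ℓ (p w) = 0 := by
        ext m
        rw [Polynomial.coeff_zero]
        rcases Nat.lt_or_ge m (W + 1) with hm | hm
        · exact congrFun h0 (⟨m, hm⟩, w)
        · exact Polynomial.coeff_eq_zero_of_natDegree_lt (lt_of_le_of_lt (htd w) hm)
      exact (Polynomial.taylor_eq_zero ℓ _).1 h2
    funext ⟨e, w⟩
    rw [← hpc w e, h1 w]
    simp
  · rw [← hv, Fintype.sum_prod_type, Fintype.sum_prod_type, Finset.sum_comm, Finset.sum_comm (s := Finset.univ (α := Fin (W + 1)))]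
    refine Finset.sum_congr rfl fun w _ => ?_
    have h1 : ∀ e : Fin (W + 1), (Polynomial.taylor ℓ (p w)).coeff (e : ℕ) *
        ((ev t (ff α g (e, w)) : ℝ) : ℂ) = (Polynomial.taylor ℓ (p w)).coeff (e : ℕ) * Q ^ (e : ℕ) * L w := by
      intro e
      rw [hF]
      ring
    simp only [h1, hX]
    rw [← Finset.sum_mul]
    have h2 : ∑ i : Fin (W + 1), (Polynomial.taylor ℓ (p w)).coeff (i : ℕ) * Q ^ (i : ℕ) = (p w).eval (Q + ℓ) := by
      rw [← Polynomial.taylor_eval, Polynomial.eval_eq_sum_range' (Nat.lt_succ_of_le (htd w)), Finset.sum_range]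
    rw [h2, hpe, Finset.sum_mul]
    refine Finset.sum_congr rfl fun e _ => ?_
    rw [add_comm Q ℓ]
    ring

/-- few bad integers in a short window -/
theorem win_XX (hα : Function.Injective α) (h0 : ∀ a, α a ≠ 0) (W D : ℕ) : ∃ E M : ℕ, ∀ H t : ℕ, (H + 2) ^ E ≤ t →
    ∀ (V : Submodule ℚ ℂ) [Module.Finite ℚ V], Module.finrank ℚ V ≤ D →
    ∀ S : Finset ℕ, (∀ u ∈ S, t ≤ u + H ∧ u ≤ t ∧ Bad V (XX α W u)) → S.card ≤ M := by
  classical
  obtain ⟨E₀, hF⟩ := fam_ff α h0 W (r := r)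
  obtain ⟨E₁, hE₁⟩ := win hF (2 * ex α) (by unfold ex; omega)
    (fun k g h1 h2 h3 => sep_of α hα h0 k g h1 h2 h3) ((W + 1) * D)
  obtain ⟨E₂, hE₂⟩ := bad_shift α W (r := r)
  refine ⟨E₁ + E₂ + 1, 2 * ex α * ((W + 1) * D + 1), ?_⟩
  intro H t hHt V _ hV S hS
  have h1 : (H + 2) ^ E₁ ≤ t := (Nat.pow_le_pow_right (by omega) (by omega)).trans hHt
  have h2 : (H + 2) ^ E₂ ≤ t := (Nat.pow_le_pow_right (by omega) (by omega)).trans hHt
  have h3 : (S.image fun u => t - u).card = S.card := by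
    refine Finset.card_image_of_injOn ?_
    intro u hu u' hu' heq
    have e1 := hS u hu
    have e2 := hS u' hu'
    simp only at heq
    omega
  rw [← h3]
  refine hE₁ H t h1 (Ext V fun i : Fin (W + 1) => (((Real.log t : ℝ) : ℂ)) ^ (i : ℕ))
    ((finrank_Ext V _).trans ?_) _ fun g hg => ?_
  · rw [Fintype.card_fin]
    exact Nat.mul_le_mul_left _ hV
  · obtain ⟨u, hu, rfl⟩ := Finset.mem_image.1 hg
    obtain ⟨g1, g2, g3⟩ := hS u hu
    refine ⟨by omega, hE₂ V (t - u) t ((Nat.pow_le_pow_left (by omega) _).trans h2) ?_⟩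
    rw [show t - (t - u) = u by omega]
    exact g3

/-- few bad integers -/
theorem one_XX (hα : Function.Injective α) (h0 : ∀ a, α a ≠ 0) (W : ℕ) : One (XX α W) := by
  intro D
  obtain ⟨E, M, hE⟩ := win_XX α hα h0 W D
  refine ⟨1 / (2 * ((max E 1 : ℕ) : ℝ)), 8 + 4 * M, by positivity, by positivity, ?_⟩
  intro V _ hV x N hN S hS
  refine count_one (fun t => Bad V (XX α W t)) M (max E 1) (le_max_right _ _) ?_ x N hN S hS
  intro H t hHt S' hS'
  have h1 : (H + 2) ^ E ≤ t := (Nat.pow_le_pow_right (by omega) (le_max_left _ _)).trans hHt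
  have h2 : H + 2 ≤ t := (Nat.le_self_pow (by omega) _).trans hHt
  have h3 : (S'.image fun g => t - g).card = S'.card := by
    refine Finset.card_image_of_injOn ?_
    intro g hg g' hg' heq
    have e1 := hS' g hg
    have e2 := hS' g' hg'
    simp only at heq
    omega
  rw [← h3]
  refine hE H t h1 V hV _ fun u hu => ?_
  obtain ⟨g, hg, rfl⟩ := Finset.mem_image.1 hu
  obtain ⟨g1, g2, g3⟩ := hS' g hg
  exact ⟨by omega, by omega, g3⟩

end Pool.Agent.Y119.ML
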