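import Mathlib

/-!
# Linear independence over a differential field: graded unipotent systems
-/

set_option autoImplicit false

open Finset

namespace Pool.Agent.Y119.ML

/-- A finite graded family of functions over the differential field `K`, the derivative of a function being a
combination, with coefficients constants times the forms `u κ`, of functions of degree one less. -/
theorem graded_indep {F : Type} [Field F] [CharZero F] [Algebra ℚ F] (D : Derivation ℚ F F) (K : Subfield F)
    (hDK : ∀ x ∈ K, D x ∈ K) {κ B : Type} [Fintype κ] [Fintype B] [DecidableEq B]
    (u : κ → F) (hu : ∀ i, u i ∈ K)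
    (hprim : ∀ (c : κ → F) (g : F), (∀ i, c i ∈ K) → (∀ i, D (c i) = 0) → g ∈ K →
      D g = ∑ i, c i * u i → ∀ i, c i = 0)
    (deg : B → ℕ) (f : B → F) (n : κ → B → B → ℚ)
    (hn : ∀ i b b', n i b b' ≠ 0 → deg b = deg b' + 1)
    (hf : ∀ b, D (f b) = ∑ b', (∑ i, (n i b b' : F) * u i) * f b')
    (h0 : ∀ g : B → F, (∀ b, g b ∈ K) → (∀ b, deg b ≠ 0 → g b = 0) → ∑ b, g b * f b = 0 → ∀ b, g b = 0)
    (hnd : ∀ (m : ℕ) (l : B → F), (∀ b, l b ∈ K) → (∀ b, D (l b) = 0) → (∀ b, deg b ≠ m + 1 → l b = 0) →
      (∀ i b', ∑ b, (n i b b' : F) * l b = 0) → ∀ b, l b = 0) :
    ∀ g : B → F, (∀ b, g b ∈ K) → ∑ b, g b * f b = 0 → ∀ b, g b = 0 := by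
  classical
  have hnK : ∀ i b b', (n i b b' : F) ∈ K := fun i b b' => SubfieldClass.ratCast_mem K _
  -- relations of degree at most m
  have main : ∀ m : ℕ, ∀ g : B → F, (∀ b, g b ∈ K) → (∀ b, m < deg b → g b = 0) →
      ∑ b, g b * f b = 0 → ∀ b, g b = 0 := by
    intro m
    induction m with
    | zero => exact fun g hg hgd hs => h0 g hg (fun b hb => hgd b (Nat.pos_of_ne_zero hb)) hs
    | succ m ih =>
      have key : ∀ k : ℕ, ∀ g : B → F, (∀ b, g b ∈ K) → (∀ b, m + 1 < deg b → g b = 0) →
          (univ.filter fun b => deg b = m + 1 ∧ g b ≠ 0).card ≤ k →
          ∑ b, g b * f b = 0 → ∀ b, deg b = m + 1 → g b = 0 := by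
        intro k
        induction k with
        | zero =>
          intro g _ _ hc _ b hb
          by_contra hne
          have h1 : b ∈ univ.filter fun b => deg b = m + 1 ∧ g b ≠ 0 := by simp [hb, hne]
          rw [card_eq_zero.1 (Nat.le_zero.1 hc)] at h1
          exact absurd h1 (notMem_empty _)
        | succ k ihk =>
          intro g hg hgd hc hs b₀ hb₀
          by_contra hne
          set g' : B → F := fun b => (g b₀)⁻¹ * g b with hg'
          have hg'K : ∀ b, g' b ∈ K := fun b => mul_mem (inv_mem (hg b₀)) (hg b)
          have hg'd : ∀ b, m + 1 < deg b → g' b = 0 := fun b hb => by simp only [hg', hgd b hb, mul_zero]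
          have hg'1 : g' b₀ = 1 := inv_mul_cancel₀ hne
          have hg's : ∑ b, g' b * f b = 0 := by
            have : ∑ b, g' b * f b = (g b₀)⁻¹ * ∑ b, g b * f b := by
              rw [mul_sum]
              exact sum_congr rfl fun w _ => by simp only [hg']; ring
            rw [this, hs, mul_zero]
          set δ : B → F := fun b' => D (g' b') + ∑ b, g' b * ∑ i, (n i b b' : F) * u i with hδ
          have hδK : ∀ b, δ b ∈ K := fun b' =>
            add_mem (hDK _ (hg'K b')) (sum_mem fun b _ => mul_mem (hg'K _) (sum_mem fun i _ =>
              mul_mem (hnK i b b') (hu i)))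
          have hz : ∀ b', m + 1 ≤ deg b' → ∑ b, g' b * ∑ i, (n i b b' : F) * u i = 0 := by
            intro b' hb'
            refine sum_eq_zero fun b _ => ?_
            by_cases hb : m + 1 < deg b
            · rw [hg'd b hb, zero_mul]
            · rw [sum_eq_zero fun i _ => ?_, mul_zero]
              by_cases h1 : n i b b' = 0
              · rw [h1]; simp
              · exact absurd (hn i b b' h1) (by omega)
          have hδd : ∀ b, m + 1 < deg b → δ b = 0 := by
            intro b hb
            simp only [hδ]
            rw [hz b hb.le, hg'd b hb, map_zero, add_zero]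
          have htop : ∀ b, deg b = m + 1 → δ b = D (g' b) := by
            intro b hb
            simp only [hδ]
            rw [hz b hb.ge, add_zero]
          have hδ0 : ∑ b, δ b * f b = 0 := by
            have h1 : D (∑ b, g' b * f b) = 0 := by rw [hg's, map_zero]
            rw [map_sum] at h1
            have h2 : ∀ b, D (g' b * f b) = g' b * D (f b) + D (g' b) * f b := fun w => by
              rw [Derivation.leibniz, smul_eq_mul, smul_eq_mul, mul_comm (f w)]
            simp only [h2, hf] at h1
            rw [sum_add_distrib] at h1
            have h3 : ∑ b, g' b * ∑ b', (∑ i, (n i b b' : F) * u i) * f b' =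
                ∑ b', (∑ b, g' b * ∑ i, (n i b b' : F) * u i) * f b' := by
              simp only [mul_sum, sum_mul]
              rw [sum_comm]
              refine sum_congr rfl fun b' _ => sum_congr rfl fun b _ => sum_congr rfl fun i _ => by ring
            rw [h3, ← sum_add_distrib] at h1
            rw [← h1]
            exact sum_congr rfl fun w _ => by simp only [hδ]; ring
          have hδc : (univ.filter fun b => deg b = m + 1 ∧ δ b ≠ 0).card ≤ k := by
            have hsub : (univ.filter fun b => deg b = m + 1 ∧ δ b ≠ 0) ⊆
                (univ.filter fun b => deg b = m + 1 ∧ g b ≠ 0).erase b₀ := by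
              intro b hb
              rw [mem_filter] at hb
              obtain ⟨-, h2, h3⟩ := hb
              rw [htop b h2] at h3
              rw [mem_erase, mem_filter]
              refine ⟨?_, mem_univ _, h2, ?_⟩
              · rintro rfl
                rw [hg'1, D.map_one_eq_zero] at h3
                exact h3 rfl
              · intro h4
                simp only [hg', h4, mul_zero, map_zero] at h3
                exact h3 rfl
            have hmem : b₀ ∈ univ.filter fun b => deg b = m + 1 ∧ g b ≠ 0 := by
              simp [hb₀, hne]
            have := card_le_card hsub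
            rw [card_erase_of_mem hmem] at this
            omega
          have hδtop := ihk δ hδK hδd hδc hδ0
          have hδall := ih δ hδK (fun b hb => by
            rcases Nat.lt_or_ge (m + 1) (deg b) with h | h
            · exact hδd b h
            · exact hδtop b (by omega)) hδ0
          -- the top coefficients are constant
          have hconst : ∀ b, deg b = m + 1 → D (g' b) = 0 := fun b hb => by rw [← htop b hb]; exact hδall b
          have hl := hnd m (fun b => if deg b = m + 1 then g' b else 0)
            (fun b => by split_ifs; exacts [hg'K b, zero_mem _])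
            (fun b => by split_ifs with h; exacts [hconst b h, map_zero _])
            (fun b hb => if_neg hb) ?_ b₀
          · rw [if_pos hb₀, hg'1] at hl
            exact one_ne_zero hl
          · intro i b'
            by_cases hb' : deg b' = m
            · have h5 := hδall b'
              have h6 := hprim (fun i => ∑ b, (n i b b' : F) * (if deg b = m + 1 then g' b else 0)) (-g' b')
                (fun i => sum_mem fun b _ => mul_mem (hnK _ _ _) (by split_ifs; exacts [hg'K b, zero_mem _]))
                (fun i => by
                  rw [map_sum]
                  refine sum_eq_zero fun b _ => ?_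
                  rw [Derivation.leibniz, smul_eq_mul, smul_eq_mul]
                  have h7 : D (n i b b' : F) = 0 := by rw [← eq_ratCast (algebraMap ℚ F)]; exact D.map_algebraMap (n i b b')
                  rw [h7]
                  split_ifs with h
                  · rw [hconst b h]; simp
                  · simp) (neg_mem (hg'K _)) ?_ i
              · exact h6
              · rw [map_neg]
                simp only [hδ] at h5
                have h8 : ∑ i, (∑ b, (n i b b' : F) * (if deg b = m + 1 then g' b else 0)) * u i =
                    ∑ b, g' b * ∑ i, (n i b b' : F) * u i := by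
                  simp only [mul_sum, sum_mul]
                  rw [sum_comm]
                  refine sum_congr rfl fun b _ => sum_congr rfl fun i _ => ?_
                  by_cases h1 : n i b b' = 0
                  · rw [h1]; simp
                  · rw [if_pos (by rw [hn i b b' h1, hb'])]; ring
                rw [h8]
                exact neg_eq_of_add_eq_zero_right h5
            · refine sum_eq_zero fun b _ => ?_
              by_cases h1 : n i b b' = 0
              · rw [h1]; simp
              · rw [if_neg, mul_zero]
                have := hn i b b' h1
                omega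
      intro g hg hgd hs
      have htop := key _ g hg hgd le_rfl hs
      exact ih g hg (fun b hb => by
        rcases Nat.lt_or_ge (m + 1) (deg b) with h | h
        · exact hgd b h
        · exact htop b (by omega)) hs
  intro g hg hs
  refine main (∑ b, deg b) g hg (fun b hb => ?_) hs
  have := single_le_sum (f := deg) (fun _ _ => Nat.zero_le _) (mem_univ b)
  omega

end Pool.Agent.Y119.ML
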