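import Pool.Agent.Y119.ML.LI

/-!
# Linear independence over a differential field: products of graded unipotent systems
-/

set_option autoImplicit false

open Finset

namespace Pool.Agent.Y119.ML

lemma sum_update {k : ℕ} {J M : Type} [Fintype J] [DecidableEq J] [AddCommMonoid M] (l : Fin k) (b : Fin k → J)
    (φ : (Fin k → J) → M) :
    ∑ b', (if ∀ m, m ≠ l → b m = b' m then φ b' else 0) = ∑ j, φ (Function.update b l j) := by
  classical
  rw [← sum_filter]
  symm
  refine sum_bij (fun j _ => Function.update b l j) (fun j _ => ?_) (fun j _ j' _ h => ?_) (fun b' hb' => ?_)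
    (fun j _ => rfl)
  · simp only [mem_filter, mem_univ, true_and]
    intro m hm
    rw [Function.update_of_ne hm]
  · have := congrFun h l
    simpa using this
  · simp only [mem_filter, mem_univ, true_and] at hb'
    refine ⟨b' l, mem_univ _, ?_⟩
    funext m
    by_cases hm : m = l
    · subst hm; simp
    · rw [Function.update_of_ne hm, hb' m hm]

/-- products of `k` systems of the same shape, with one form in common -/
theorem prod_indep {F : Type} [Field F] [CharZero F] [Algebra ℚ F] (D : Derivation ℚ F F) (K : Subfield F)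
    (hDK : ∀ x ∈ K, D x ∈ K) {k : ℕ} {O J : Type} [Fintype O] [Fintype J] [DecidableEq J]
    (u : Option (Fin k × O) → F) (hu : ∀ i, u i ∈ K)
    (hprim : ∀ (c : Option (Fin k × O) → F) (g : F), (∀ i, c i ∈ K) → (∀ i, D (c i) = 0) → g ∈ K →
      D g = ∑ i, c i * u i → ∀ i, c i = 0)
    (deg : J → ℕ) (j₀ : J) (hj₀ : ∀ j, deg j = 0 ↔ j = j₀) (f : Fin k → J → F) (hf0 : ∀ l, f l j₀ = 1)
    (N : Option O → J → J → ℚ) (hN : ∀ o j j', N o j j' ≠ 0 → deg j = deg j' + 1)
    (hf : ∀ l j, D (f l j) = ∑ j', (∑ o : Option O, (N o j j' : F) * u (o.map fun o => (l, o))) * f l j')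
    (hnd : ∀ l : J → F, (∀ j, l j ∈ K) → (∀ j, D (l j) = 0) →
      (∀ o j', ∑ j, (N (some o) j j' : F) * l j = 0) → ∀ j, j ≠ j₀ → l j = 0) :
    ∀ g : (Fin k → J) → F, (∀ b, g b ∈ K) → ∑ b, g b * ∏ l, f l (b l) = 0 → ∀ b, g b = 0 := by
  classical
  set n : Option (Fin k × O) → (Fin k → J) → (Fin k → J) → ℚ := fun i b b' =>
    Option.elim i (∑ l, if ∀ m, m ≠ l → b m = b' m then N none (b l) (b' l) else 0)
      (fun p => if ∀ m, m ≠ p.1 → b m = b' m then N (some p.2) (b p.1) (b' p.1) else 0) with hn
  have hdeg : ∀ (l : Fin k) (b b' : Fin k → J), (∀ m, m ≠ l → b m = b' m) → deg (b l) = deg (b' l) + 1 →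
      ∑ m, deg (b m) = ∑ m, deg (b' m) + 1 := by
    intro l b b' h1 h2
    rw [← add_sum_erase _ _ (mem_univ l), ← add_sum_erase _ (fun m => deg (b' m)) (mem_univ l), h2]
    have : ∑ m ∈ univ.erase l, deg (b m) = ∑ m ∈ univ.erase l, deg (b' m) :=
      sum_congr rfl fun m hm => by rw [h1 m (ne_of_mem_erase hm)]
    rw [this]
    ring
  refine graded_indep D K hDK u hu hprim (fun b => ∑ l, deg (b l)) (fun b => ∏ l, f l (b l)) n ?_ ?_ ?_ ?_
  · intro i b b' h
    rcases i with _ | ⟨l, o⟩
    · simp only [hn, Option.elim_none] at h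
      obtain ⟨l, -, hl⟩ := exists_ne_zero_of_sum_ne_zero h
      split_ifs at hl with h1
      · exact hdeg l b b' h1 (hN _ _ _ hl)
      · exact absurd rfl hl
    · simp only [hn, Option.elim_some] at h
      split_ifs at h with h1
      · exact hdeg l b b' h1 (hN _ _ _ h)
      · exact absurd rfl h
  · intro b
    have e1 : D (∏ l, f l (b l)) = ∑ l, (∏ m ∈ univ.erase l, f m (b m)) * D (f l (b l)) := by
      have h1 : ∀ s : Finset (Fin k), D (∏ l ∈ s, f l (b l)) =
          ∑ l ∈ s, (∏ m ∈ s.erase l, f m (b m)) * D (f l (b l)) := by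
        intro s
        induction s using Finset.induction_on with
        | empty => simp
        | insert a s ha ih =>
          rw [prod_insert ha, Derivation.leibniz, smul_eq_mul, smul_eq_mul, ih, sum_insert ha, erase_insert ha,
            mul_sum, add_comm]
          congr 1
          refine sum_congr rfl fun l hl => ?_
          have hla : l ≠ a := fun h => ha (h ▸ hl)
          rw [erase_insert_of_ne hla.symm, prod_insert (fun h => ha (mem_of_mem_erase h))]
          ring
      exact h1 univ
    rw [e1]
    have e2 : ∀ l, (∏ m ∈ univ.erase l, f m (b m)) * D (f l (b l)) =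
        ∑ b' : Fin k → J, (if ∀ m, m ≠ l → b m = b' m then
          (∑ o : Option O, (N o (b l) (b' l) : F) * u (o.map fun o => (l, o))) * ∏ m, f m (b' m) else 0) := by
      intro l
      rw [sum_update l b, hf, mul_sum]
      refine sum_congr rfl fun j _ => ?_
      rw [← mul_prod_erase univ (fun m => f m (Function.update b l j m)) (mem_univ l), Function.update_self]
      have : ∏ m ∈ univ.erase l, f m (Function.update b l j m) = ∏ m ∈ univ.erase l, f m (b m) :=
        prod_congr rfl fun m hm => by rw [Function.update_of_ne (ne_of_mem_erase hm)]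
      rw [this]
      ring
    simp only [e2]
    rw [sum_comm]
    refine sum_congr rfl fun b' _ => ?_
    rw [Fintype.sum_option, Fintype.sum_prod_type, add_mul]
    simp only [hn, Option.elim_none, Option.elim_some, Rat.cast_sum, sum_mul, ← sum_add_distrib]
    refine sum_congr rfl fun l _ => ?_
    split_ifs with h1
    · rw [Fintype.sum_option]
      rfl
    · simp
  · intro g _ hg hs b
    by_cases hb : ∑ l, deg (b l) = 0
    · have hb0 : ∀ b : Fin k → J, ∑ l, deg (b l) = 0 → b = fun _ => j₀ := by
        intro b hb
        funext l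
        exact (hj₀ _).1 (sum_eq_zero_iff.1 hb l (mem_univ l))
      rw [hb0 b hb]
      rw [sum_eq_single (fun _ => j₀)] at hs
      · simpa [hf0] using hs
      · intro b' _ hb'
        rw [hg b' (fun h => hb' (hb0 b' h)), zero_mul]
      · intro h; exact absurd (mem_univ _) h
    · exact hg b hb
  · intro m l hlK hlD hl0 hl b
    by_cases hb : ∑ i, deg (b i) = m + 1
    · have h1 : ∃ i, b i ≠ j₀ := by
        by_contra hcon
        push Not at hcon
        rw [sum_eq_zero fun i _ => (hj₀ _).2 (hcon i)] at hb
        omega
      obtain ⟨i, hi⟩ := h1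
      have h2 := hnd (fun j => l (Function.update b i j)) (fun j => hlK _) (fun j => hlD _) (fun o j' => ?_) (b i) hi
      · simpa using h2
      · have h3 := hl (some (i, o)) (Function.update b i j')
        simp only [hn, Option.elim_some, Function.update_self] at h3
        rw [← h3]
        have h4 : ∀ b' : Fin k → J, (((if ∀ m, m ≠ i → b' m = Function.update b i j' m then
            N (some o) (b' i) j' else 0 : ℚ)) : F) * l b' =
            if ∀ m, m ≠ i → b m = b' m then (N (some o) (b' i) j' : F) * l b' else 0 := by
          intro b'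
          have h5 : (∀ m, m ≠ i → b' m = Function.update b i j' m) ↔ ∀ m, m ≠ i → b m = b' m := by
            constructor
            · intro h m hm
              rw [h m hm, Function.update_of_ne hm]
            · intro h m hm
              rw [Function.update_of_ne hm, h m hm]
          by_cases h6 : ∀ m, m ≠ i → b m = b' m
          · rw [if_pos (h5.2 h6), if_pos h6]
          · rw [if_neg (fun h => h6 (h5.1 h)), if_neg h6]; simp
        simp only [h4]
        rw [sum_update i b]
        simp
    · exact hl0 b hb

end Pool.Agent.Y119.ML
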