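import Pool.Agent.Y119.ML.Ser

/-!
# Hyperlogarithms as power series: the system of differential equations and the linear independence
-/

set_option autoImplicit false

open Finset PowerSeries

namespace Pool.Agent.Y119.ML

open Pool.Agent.W924.LF (eul coeff_eul)
open Pool.Agent.Y113 (lg)

attribute [-instance] HahnSeries.powerSeriesAlgebra

variable {r : ℕ} (α : Fin r → ℤ)

/-- the shift of the singularity attached to a letter -/
def sft : Option (Fin r) → ℤ
  | none => 0
  | some a => α a

/-- the sum over the words with a given tail -/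
lemma sum_up {W : ℕ} (o : Option (Fin r)) (j' : JJ r W) (φ : JJ r W → FF)
    (hφ : ∀ j : JJ r W, j.2.1 = o :: j'.2.1 → φ j = 0) :
    ∑ j : JJ r W, (if j.2.1 = o :: j'.2.1 ∧ j.1 = j'.1 then φ j else 0) = 0 := by
  refine sum_eq_zero fun j _ => ?_
  split_ifs with h
  · exact hφ j h.1
  · rfl

lemma sum_up' {W : ℕ} (o : Option (Fin r)) (i : Fin (W + 1)) (v : List (Option (Fin r)))
    (hv : (o :: v).length ≤ W ∧ (o :: v).getLast? ≠ some none)
    (hv' : v.length ≤ W ∧ v.getLast? ≠ some none) (φ : JJ r W → FF) :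
    ∑ j : JJ r W, (if j.2.1 = o :: ((i, ⟨v, hv'⟩) : JJ r W).2.1 ∧ j.1 = ((i, ⟨v, hv'⟩) : JJ r W).1 then φ j else 0) =
      φ (i, ⟨o :: v, hv⟩) := by
  rw [sum_eq_single (i, ⟨o :: v, hv⟩)]
  · rw [if_pos ⟨rfl, rfl⟩]
  · rintro ⟨i', w'⟩ _ hne
    rw [if_neg]
    rintro ⟨h1, h2⟩
    exact hne (Prod.ext h2 (Subtype.ext h1))
  · intro h; exact absurd (mem_univ _) h

lemma cast_ite (p : Prop) [Decidable p] (x : ℚ) (y : FF) : (((if p then x else 0 : ℚ)) : FF) * y =
    if p then (x : FF) * y else 0 := by
  split_ifs <;> simp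

lemma cast_ite' (p : Prop) [Decidable p] (x : ℚ) : (((if p then x else 0 : ℚ)) : FF) =
    if p then (x : FF) else 0 := by
  split_ifs <;> simp

/-- the nondegeneracy -/
theorem nondeg {W : ℕ} (hα : ∀ a, α a ≠ 0) (l : JJ r W → FF)
    (h : ∀ (o : Option (Fin r)) (j' : JJ r W), ∑ j, (NN α (some o) j j' : FF) * l j = 0) :
    ∀ j, j ≠ j0 r W → l j = 0 := by
  have step1 : ∀ (a : Fin r) (j' j : JJ r W), j.2.1 = some a :: j'.2.1 → l j = 0 := by
    intro a j' j hj
    have h1 := h (some a) (j.1, j'.2)
    simp only [NN, cast_ite] at h1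
    obtain ⟨i, w, hw⟩ := j
    simp only at hj
    subst hj
    rw [sum_up' (some a) i j'.2.1 hw j'.2.2] at h1
    have h2 : ((-(1 / α a : ℚ) : ℚ) : FF) ≠ 0 := by
      rw [Rat.cast_ne_zero, neg_ne_zero]
      exact one_div_ne_zero (by exact_mod_cast hα a)
    exact (mul_eq_zero.1 h1).resolve_left h2
  have step2 : ∀ (w : List (Option (Fin r))) (i : Fin (W + 1)) (hw : w.length ≤ W ∧ w.getLast? ≠ some none),
      ((i, ⟨w, hw⟩) : JJ r W) ≠ j0 r W → l (i, ⟨w, hw⟩) = 0 := by
    intro w
    induction w with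
    | nil =>
      intro i hw hne
      have hi : (i : ℕ) ≠ 0 := by
        intro hi
        apply hne
        have : i = 0 := Fin.ext hi
        rw [this]
        rfl
      have hi1 : (i : ℕ) - 1 < W + 1 := by omega
      have h1 := h none (⟨(i : ℕ) - 1, hi1⟩, ⟨[], hw⟩)
      simp only [NN, Rat.cast_add, Rat.cast_sub, Rat.cast_sum, cast_ite'] at h1
      push_cast at h1
      simp only [add_mul, sub_mul, sum_mul, sum_add_distrib, sum_sub_distrib] at h1
      rw [sum_comm] at h1
      have e1 : ∑ j : JJ r W, (if (j.1 : ℕ) = (i : ℕ) - 1 + 1 ∧ j.2 = ⟨[], hw⟩ then (((j.1 : ℕ)) : FF) else 0) * l j =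
          ((i : ℕ) : FF) * l (i, ⟨[], hw⟩) := by
        rw [sum_eq_single (i, ⟨[], hw⟩)]
        · rw [if_pos ⟨by simp only; omega, rfl⟩]
        · rintro ⟨i', w'⟩ _ hne'
          rw [if_neg, zero_mul]
          rintro ⟨h2, h3⟩
          simp only at h2 h3
          exact hne' (Prod.ext (Fin.ext (by simp only; omega)) h3)
        · intro h; exact absurd (mem_univ _) h
      have e2 : ∑ j : JJ r W, (if j.2.1 = none :: [] ∧ j.1 = ⟨(i : ℕ) - 1, hi1⟩ then (1 : FF) else 0) * l j = 0 := by
        refine sum_eq_zero fun j _ => ?_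
        rw [if_neg, zero_mul]
        rintro ⟨h2, -⟩
        exact j.2.2.2 (by rw [h2]; simp)
      have e3 : ∀ a : Fin r, ∑ j : JJ r W, (if j.2.1 = some a :: [] ∧ j.1 = ⟨(i : ℕ) - 1, hi1⟩ then
          (1 / (α a : FF)) else 0) * l j = 0 := by
        intro a
        refine sum_eq_zero fun j _ => ?_
        split_ifs with h2
        · rw [step1 a (i, ⟨[], hw⟩) j h2.1, mul_zero]
        · rw [zero_mul]
      rw [e1, e2, sum_eq_zero fun a _ => e3 a, sub_zero, add_zero] at h1
      exact (mul_eq_zero.1 h1).resolve_left (by exact_mod_cast hi)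
    | cons o v ih =>
      intro i hw hne
      have hv : v.length ≤ W ∧ v.getLast? ≠ some none := ⟨by have := hw.1; simp at this; omega, adm_tail hw.2⟩
      rcases o with _ | a
      · have h1 := h none (i, ⟨v, hv⟩)
        simp only [NN, Rat.cast_add, Rat.cast_sub, Rat.cast_sum, cast_ite'] at h1
        push_cast at h1
        simp only [add_mul, sub_mul, sum_mul, sum_add_distrib, sum_sub_distrib] at h1
        rw [sum_comm] at h1
        have e1 : ∑ j : JJ r W, (if (j.1 : ℕ) = (i : ℕ) + 1 ∧ j.2 = ⟨v, hv⟩ then (((j.1 : ℕ)) : FF) else 0) * l j = 0 := by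
          refine sum_eq_zero fun j _ => ?_
          split_ifs with h2
          · obtain ⟨i', w'⟩ := j
            simp only at h2
            obtain ⟨h2, rfl⟩ := h2
            rw [ih i' hv ?_, mul_zero]
            intro h3
            have := congrArg (fun x : JJ r W => (x.1 : ℕ)) h3
            simp only [j0, Fin.val_zero] at this
            omega
          · rw [zero_mul]
        have e2 : ∑ j : JJ r W, (if j.2.1 = none :: v ∧ j.1 = i then (1 : FF) else 0) * l j =
            l (i, ⟨none :: v, hw⟩) := by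
          rw [sum_eq_single (i, ⟨none :: v, hw⟩)]
          · rw [if_pos ⟨rfl, rfl⟩, one_mul]
          · rintro ⟨i', w'⟩ _ hne'
            rw [if_neg, zero_mul]
            rintro ⟨h2, h3⟩
            exact hne' (Prod.ext h3 (Subtype.ext h2))
          · intro h; exact absurd (mem_univ _) h
        have e3 : ∀ a : Fin r, ∑ j : JJ r W, (if j.2.1 = some a :: v ∧ j.1 = i then
            (1 / (α a : FF)) else 0) * l j = 0 := by
          intro a
          refine sum_eq_zero fun j _ => ?_
          split_ifs with h2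
          · rw [step1 a (i, ⟨v, hv⟩) j h2.1, mul_zero]
          · rw [zero_mul]
        rw [e1, e2, sum_eq_zero fun a _ => e3 a, add_zero, zero_sub, neg_eq_zero] at h1
        exact h1
      · exact step1 a (i, ⟨v, hv⟩) (i, ⟨some a :: v, hw⟩) rfl
  rintro ⟨i, w, hw⟩ hne
  exact step2 w i hw hne

/-- the differential equations -/
theorem ff_der {W : ℕ} (hα : ∀ a, α a ≠ 0) (g : ℕ) (hg : 1 ≤ g) (hga : ∀ a, (g : ℤ) + α a ≠ 0) (j : JJ r W) :
    eul (io (ff α g j)) = ∑ j', (∑ o : Option (Option (Fin r)), (NN α o j j' : FF) *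
      uf (o.elim 0 fun o => g + sft α o)) * io (ff α g j') := by
  obtain ⟨i, w, hw⟩ := j
  simp only [Fintype.sum_option, Option.elim_none, Option.elim_some, sft, add_zero, NN, Rat.cast_add, Rat.cast_sub,
    Rat.cast_sum, cast_ite']
  push_cast
  -- the three parts
  have key : ∀ j' : JJ r W,
      ((if w = none :: j'.2.1 ∧ i = j'.1 then (1 : FF) else 0) * uf 0 +
        (((if (i : ℕ) = j'.1 + 1 ∧ (⟨w, hw⟩ : WI r W) = j'.2 then ((i : ℕ) : FF) else 0) -
          (if w = none :: j'.2.1 ∧ i = j'.1 then (1 : FF) else 0) +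
          ∑ a, if w = some a :: j'.2.1 ∧ i = j'.1 then 1 / (α a : FF) else 0) * uf g +
        ∑ a, (if w = some a :: j'.2.1 ∧ i = j'.1 then -(1 / (α a : FF)) else 0) * uf (g + α a))) *
        io (ff α g j') =
      (if (i : ℕ) = j'.1 + 1 ∧ (⟨w, hw⟩ : WI r W) = j'.2 then ((i : ℕ) : FF) * uf g * io (ff α g j') else 0) +
      ((if w = none :: j'.2.1 ∧ i = j'.1 then io (UU α g none) * io (ff α g j') else 0) +
      ∑ a, if w = some a :: j'.2.1 ∧ i = j'.1 then io (UU α g (some a)) * io (ff α g j') else 0) := by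
    intro j'
    rw [io_UU_none α g hg]
    have e1 : ∀ a, (if w = some a :: j'.2.1 ∧ i = j'.1 then io (UU α g (some a)) * io (ff α g j') else 0) =
        (if w = some a :: j'.2.1 ∧ i = j'.1 then 1 / (α a : FF) else 0) * uf g * io (ff α g j') +
        (if w = some a :: j'.2.1 ∧ i = j'.1 then -(1 / (α a : FF)) else 0) * uf (g + α a) * io (ff α g j') := by
      intro a
      split_ifs
      · rw [io_UU_some α g hg a (hα a) (hga a)]
        push_cast
        ring
      · ring
    simp only [e1, sum_add_distrib]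
    have e2 : (if (i : ℕ) = j'.1 + 1 ∧ (⟨w, hw⟩ : WI r W) = j'.2 then ((i : ℕ) : FF) * uf g * io (ff α g j') else 0) =
        (if (i : ℕ) = j'.1 + 1 ∧ (⟨w, hw⟩ : WI r W) = j'.2 then ((i : ℕ) : FF) else 0) * uf g * io (ff α g j') := by
      split_ifs <;> ring
    have e3 : (if w = none :: j'.2.1 ∧ i = j'.1 then (uf 0 - uf g) * io (ff α g j') else 0) =
        (if w = none :: j'.2.1 ∧ i = j'.1 then (1 : FF) else 0) * (uf 0 - uf g) * io (ff α g j') := by
      split_ifs <;> ring
    rw [e2, e3, ← sum_mul, ← sum_mul, ← sum_mul]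
    ring
  rw [sum_congr rfl fun j' _ => key j', sum_add_distrib, sum_add_distrib, sum_comm]
  -- the part with the logarithm
  have p1 : ∑ j' : JJ r W, (if (i : ℕ) = j'.1 + 1 ∧ (⟨w, hw⟩ : WI r W) = j'.2 then
      ((i : ℕ) : FF) * uf g * io (ff α g j') else 0) = io (X * (d⁄dX ℚ (lg g ^ (i : ℕ))) * LL α g w) := by
    rcases Nat.eq_zero_or_pos (i : ℕ) with hi | hi
    · rw [hi]
      simp only [pow_zero, map_one_eq_zero, Derivation.map_one_eq_zero, mul_zero, zero_mul, map_zero]
      refine sum_eq_zero fun j' _ => ?_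
      rw [if_neg]
      rintro ⟨h, -⟩
      omega
    · have hi1 : (i : ℕ) - 1 < W + 1 := by omega
      rw [sum_eq_single (⟨(i : ℕ) - 1, hi1⟩, ⟨w, hw⟩)]
      · rw [if_pos ⟨by simp only; omega, rfl⟩, uf_eq g (by omega), ff, ← map_natCast io, ← map_mul, ← map_mul]
        congr 1
        simp only
        rw [Derivation.leibniz_pow, smul_eq_mul, nsmul_eq_mul]
        have := theta_lg g
        linear_combination (-((i : ℕ) : ℚ⟦X⟧) * lg g ^ ((i : ℕ) - 1) * LL α g w) * this
      · rintro ⟨i', w'⟩ _ hne
        rw [if_neg]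
        rintro ⟨h1, h2⟩
        simp only at h1 h2
        exact hne (Prod.ext (Fin.ext (by simp only; omega)) h2.symm)
      · intro h; exact absurd (mem_univ _) h
  -- the part with the words
  have p2 : ∑ j' : JJ r W, (if w = none :: j'.2.1 ∧ i = j'.1 then io (UU α g none) * io (ff α g j') else 0) +
      ∑ a, ∑ j' : JJ r W, (if w = some a :: j'.2.1 ∧ i = j'.1 then io (UU α g (some a)) * io (ff α g j') else 0) =
      io (lg g ^ (i : ℕ) * (X * d⁄dX ℚ (LL α g w))) := by
    cases w with
    | nil =>
      have h1 := sum_nil (r := r) (W := W) none i hw (fun j' => io (UU α g none) * io (ff α g j'))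
      have h2 : ∀ a, _ := fun a =>
        sum_nil (r := r) (W := W) (some a) i hw (fun j' => io (UU α g (some a)) * io (ff α g j'))
      simp only at h1 h2
      rw [h1, sum_eq_zero fun a _ => h2 a]
      simp [LL]
    | cons o v =>
      have hv : v.length ≤ W ∧ v.getLast? ≠ some none := ⟨by have := hw.1; simp at this; omega, adm_tail hw.2⟩
      have h1 := sum_cons (r := r) (W := W) none i o v hw hv (fun j' => io (UU α g none) * io (ff α g j'))
      have h2 : ∀ a, _ := fun a =>
        sum_cons (r := r) (W := W) (some a) i o v hw hv (fun j' => io (UU α g (some a)) * io (ff α g j'))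
      simp only at h1 h2
      rw [h1, sum_congr rfl fun a _ => h2 a, theta_LL α g hw.2]
      rcases o with _ | a
      · rw [if_pos rfl, sum_eq_zero fun a _ => if_neg (by simp), add_zero, ff, ← map_mul]
        congr 1
        simp only
        ring
      · rw [if_neg (by simp), zero_add, sum_eq_single a, if_pos rfl, ff, ← map_mul]
        · congr 1
          simp only
          ring
        · intro b _ hb
          rw [if_neg (by simpa using hb.symm)]
        · intro h; exact absurd (mem_univ _) h
  rw [p1, p2, eul_io, ← map_add]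
  congr 1
  rw [ff, Derivation.leibniz, smul_eq_mul, smul_eq_mul]
  ring

/-- the linear independence of the products, for several shifts -/
theorem ff_indep {W k : ℕ} (hα : ∀ a, α a ≠ 0) (g : Fin k → ℕ) (hg : ∀ l, 1 ≤ g l)
    (hinj : Function.Injective fun p : Fin k × Option (Fin r) => (g p.1 : ℤ) + sft α p.2)
    (hne : ∀ l o, (g l : ℤ) + sft α o ≠ 0) :
    LinearIndependent (Polynomial ℚ) (fun b : Fin k → JJ r W => ∏ l, ff α (g l) (b l)) := by
  classical
  set ν : Option (Fin k × Option (Fin r)) → ℤ := fun i => i.elim 0 fun p => g p.1 + sft α p.2 with hν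
  have hνi : Function.Injective ν := by
    rintro (_ | p) (_ | p') h
    · rfl
    · exact absurd h.symm (hne _ _)
    · exact absurd h (hne _ _)
    · exact congrArg some (hinj h)
  have main := prod_indep eul KF (fun x hx => eul_mem hx) (k := k) (O := Option (Fin r)) (J := JJ r W)
    (fun i => uf (ν i)) (fun i => uf_mem _)
    (fun c g _ hc hg h => prim ν hνi c g hc hg h) dg (j0 r W) dg_eq_zero (fun l j => io (ff α (g l) j))
    (fun l => by simp [ff, j0, LL]) (NN α) (NN_deg α)
    (fun l j => by
      rw [ff_der α hα (g l) (hg l) (fun a => hne l (some a)) j]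
      refine sum_congr rfl fun j' _ => ?_
      congr 1
      refine sum_congr rfl fun o _ => ?_
      rcases o with _ | o <;> rfl)
    (fun l _ _ h => nondeg α hα l h)
  rw [Fintype.linearIndependent_iff]
  intro p hp b
  have h1 := main (fun b => pio (p b)) (fun b => pio_mem _) (by
    have h2 := congrArg io hp
    rw [map_sum, map_zero] at h2
    rw [← h2]
    refine sum_congr rfl fun b _ => ?_
    rw [Pool.Agent.Y141.GF.smul_eq', map_mul, map_prod]
    rfl) b
  exact pio_inj (by rw [h1, map_zero])

end Pool.Agent.Y119.ML
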