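import Pool.Agent.Y119.ML.Ev2
import Pool.Agent.Y119.ML.Ser2
import Pool.Agent.Y120.G.Cnt

/-!
# Few bad integers in a short window (after helper120)
-/

set_option autoImplicit false

open PowerSeries Pool.Agent.Y113 Pool.Agent.Y120.GF

namespace Pool.Agent.Y119.ML

section
variable {σ : Type} [Fintype σ]

/-- the hypotheses on a family of shifts -/
structure FamP (F : ℕ → σ → ℚ⟦X⟧) (Tg : ℕ → Polynomial ℤ) (q₀ E₀ A : ℕ) (b₀ : σ) (P : ∀ k, (Fin k → ℕ) → Prop) :
    Prop where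
  one : ∀ g, F g b₀ = 1
  sys : ∀ g : ℕ, GSys q₀ (((g : ℝ) + 2) ^ E₀) (Tg g) (F g)
  ne : ∀ g t : ℕ, g + A < t → Polynomial.aeval (1 / (t : ℝ)) (Tg g) ≠ 0
  li : ∀ (k : ℕ) (g : Fin k → ℕ), P k g → LinearIndependent (Polynomial ℚ) (fun b : Fin k → σ => ∏ l, F (g l) (b l))

lemma add_lt_pow (H A : ℕ) : H + A < (H + 2) ^ (A + 1) := by
  have h1 : A < 2 ^ A := Nat.lt_two_pow_self
  have h2 : 2 ^ A ≤ (H + 2) ^ A := Nat.pow_le_pow_left (by omega) _
  have h3 : A + 1 ≤ (H + 2) ^ A := by omega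
  calc H + A < (A + 1) * (H + 2) := by nlinarith
    _ ≤ (H + 2) ^ A * (H + 2) := Nat.mul_le_mul_right _ h3
    _ = _ := (pow_succ _ _).symm

variable {F : ℕ → σ → ℚ⟦X⟧} {Tg : ℕ → Polynomial ℤ} {q₀ E₀ A : ℕ} {b₀ : σ} {P : ∀ k, (Fin k → ℕ) → Prop}

theorem win_core (hF : FamP F Tg q₀ E₀ A b₀ P) (D : ℕ) : ∃ E : ℕ, ∀ (H t : ℕ), (H + 2) ^ E ≤ t →
    ∀ g : Fin D → ℕ, P D g → (∀ l, g l ≤ H) → 0 < D → ∀ (V : Submodule ℚ ℂ) [Module.Finite ℚ V], Module.finrank ℚ V = D →
    (∀ l, Bad V fun b => ((ev t (F (g l) b) : ℝ) : ℂ)) → False := by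
  classical
  obtain ⟨q, E₁, hE₁⟩ := gsys_multi F Tg q₀ E₀ hF.sys D
  obtain ⟨E₂, hE₂⟩ := t_G (Fintype.card (Fin D → σ)) q
  refine ⟨(max E₁ 1 + 1) * max E₂ 1 + (E₀ + 2) + (A + 1), ?_⟩
  intro H t hHt g hg hgH hD V _ hV hbad
  have hH2 : (2 : ℝ) ≤ (H : ℝ) + 2 := by
    have : (0 : ℝ) ≤ H := by positivity
    linarith
  have hH1 : (1 : ℝ) ≤ (H : ℝ) + 2 := by linarith
  have htR : (((H : ℝ) + 2)) ^ ((max E₁ 1 + 1) * max E₂ 1 + (E₀ + 2) + (A + 1)) ≤ (t : ℝ) := by exact_mod_cast hHt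
  have hb1 : ((H : ℝ) + 2) ^ ((max E₁ 1 + 1) * max E₂ 1) ≤ (t : ℝ) :=
    (pow_le_pow_right₀ hH1 (by omega)).trans htR
  have hb2 : ((H : ℝ) + 2) ^ (E₀ + 2) ≤ (t : ℝ) := (pow_le_pow_right₀ hH1 (by omega)).trans htR
  have hHt' : H + A < t :=
    (add_lt_pow H A).trans_le ((Nat.pow_le_pow_right (by omega) (by omega)).trans hHt)
  have ht0 : (0 : ℝ) < t := by
    have : 0 < t := by omega
    exact_mod_cast this
  have hsys := (hE₁ H g hgH).mono le_rfl (pow_le_pow_right₀ hH1 (le_max_left E₁ 1))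
  have hC : (2 * ((H : ℝ) + 2) ^ (max E₁ 1)) ^ E₂ ≤ (t : ℝ) := by
    have h1 : (2 * ((H : ℝ) + 2) ^ (max E₁ 1)) ^ E₂ ≤ (2 * ((H : ℝ) + 2) ^ (max E₁ 1)) ^ (max E₂ 1) := by
      refine pow_le_pow_right₀ ?_ (le_max_left _ _)
      have : (1 : ℝ) ≤ ((H : ℝ) + 2) ^ (max E₁ 1) := one_le_pow₀ hH1
      linarith
    exact h1.trans ((pow_base H _ _).trans hb1)
  have hne : Polynomial.aeval (1 / (t : ℝ)) (∏ l, Tg (g l)) ≠ 0 := by
    rw [map_prod, Finset.prod_ne_zero_iff]
    intro l _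
    refine hF.ne _ _ ?_
    have := hgH l
    omega
  have hLI := hE₂ (Fin D → σ) (((H : ℝ) + 2) ^ (max E₁ 1)) (∏ l, Tg (g l)) (fun b => ∏ l, F (g l) (b l)) (fun _ => b₀) t
    le_rfl hsys (by
      beta_reduce
      exact Finset.prod_eq_one fun l _ => hF.one _) (hF.li D g hg) hC hne
  -- multiplicativity
  have hcv : ∀ l b, Cv (t : ℝ) (F (g l) b) := by
    intro l b
    have h1 := (hF.sys (g l)).size b
    set B : ℝ := ((g l : ℝ) + 2) ^ E₀ with hB
    have hB0 : 0 ≤ B := by positivity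
    refine Cv.of_bound (A := B) (B := B) ht0 hB0 ?_ fun m => ?_
    · have h2 : B ≤ ((H : ℝ) + 2) ^ E₀ := by
        refine pow_le_pow_left₀ (by positivity) ?_ _
        have : ((g l : ℕ) : ℝ) ≤ H := by exact_mod_cast hgH l
        linarith
      have h3 : ((H : ℝ) + 2) ^ E₀ < ((H : ℝ) + 2) ^ (E₀ + 2) := pow_lt_pow_right₀ (by linarith) (by omega)
      linarith
    · exact (h1 m).trans (le_of_eq (pow_succ' _ _))
  have hev : ∀ b : Fin D → σ, ev (t : ℝ) (∏ l, F (g l) (b l)) = ∏ l, ev (t : ℝ) (F (g l) (b l)) := by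
    intro b
    exact Cv.ev_prod ht0 Finset.univ (fun l => F (g l) (b l)) fun l _ => hcv l _
  simp only [hev] at hLI
  -- coordinates
  let e := Module.finBasisOfFinrankEq ℚ V hV
  choose v hvV hv0 hv using hbad
  have hrep : ∀ l b, ∃ τ : Fin D → ℚ, ∑ j, ((τ j : ℚ) : ℂ) * ((e j : V) : ℂ) = v l b := by
    intro l b
    refine ⟨fun j => e.repr ⟨v l b, hvV l b⟩ j, ?_⟩
    have h1 := e.sum_repr ⟨v l b, hvV l b⟩
    have h2 := congrArg (fun z : V => (z : ℂ)) h1
    simp only [Submodule.coe_sum, Submodule.coe_smul] at h2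
    refine Eq.trans ?_ h2
    refine Finset.sum_congr rfl fun j _ => ?_
    rw [Rat.smul_def]
  choose τ hrep using hrep
  have heLI : LinearIndependent ℚ (fun j => ((e j : V) : ℂ)) := by
    have := e.linearIndependent
    exact this.map' V.subtype (Submodule.ker_subtype V)
  obtain ⟨l, hl⟩ := Pool.Agent.Y141.GF.t_elim D σ (fun l b => ev (t : ℝ) (F (g l) b)) (fun j => ((e j : V) : ℂ))
    (fun l j b => τ l b j) hLI heLI (by
      intro l
      rw [Finset.sum_comm, ← hv l]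
      refine Finset.sum_congr rfl fun b _ => ?_
      rw [← hrep l b, Finset.sum_mul]
      refine Finset.sum_congr rfl fun j _ => ?_
      ring) hD
  apply hv0 l
  funext b
  rw [← hrep l b]
  refine Finset.sum_eq_zero fun j _ => ?_
  have h1 := congrFun (congrFun hl j) b
  simp only [Pi.zero_apply] at h1
  rw [h1]
  simp

/-- in a short window there are few bad integers, if the shifts in a residue class modulo `M` are independent -/
theorem win (hF : FamP F Tg q₀ E₀ A b₀ P) (M : ℕ) (hM : 1 ≤ M)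
    (hP : ∀ k (g : Fin k → ℕ), (∀ l, M ≤ g l) → Function.Injective g → (∀ l l', g l % M = g l' % M) → P k g)
    (D : ℕ) : ∃ E : ℕ, ∀ (H t : ℕ), (H + 2) ^ E ≤ t →
    ∀ (V : Submodule ℚ ℂ) [Module.Finite ℚ V], Module.finrank ℚ V ≤ D →
    ∀ S : Finset ℕ, (∀ g ∈ S, g ≤ H ∧ Bad V fun b => ((ev t (F g b) : ℝ) : ℂ)) → S.card ≤ M * (D + 1) := by
  classical
  choose E hE using win_core hF
  refine ⟨∑ D' ∈ Finset.range (D + 1), E D', ?_⟩
  intro H t hHt V _ hV S hS
  set D' := Module.finrank ℚ V with hD'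
  have hEle : E D' ≤ ∑ D' ∈ Finset.range (D + 1), E D' :=
    Finset.single_le_sum (f := E) (fun _ _ => Nat.zero_le _) (Finset.mem_range.2 (by omega))
  have hHt' : (H + 2) ^ E D' ≤ t := (Nat.pow_le_pow_right (by omega) hEle).trans hHt
  -- one residue class
  have key : ∀ S' ⊆ S, (∀ g ∈ S', M ≤ g) → (∀ g ∈ S', ∀ g' ∈ S', g % M = g' % M) → S'.card ≤ D := by
    intro S' hS' hM' hres
    by_contra hlt
    push Not at hlt
    rcases Nat.eq_zero_or_pos D' with h0 | hpos
    · have h1 : 0 < S'.card := by omega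
      obtain ⟨g, hg⟩ := Finset.card_pos.1 h1
      obtain ⟨-, v, hv1, hv2, -⟩ := hS g (hS' hg)
      apply hv2
      have hV0 : V = ⊥ := Submodule.finrank_eq_zero.1 (by rw [← hD']; exact h0)
      funext b
      have := hv1 b
      rw [hV0] at this
      exact (Submodule.mem_bot ℚ).1 this
    · obtain ⟨S'', hS''sub, hS''card⟩ := Finset.exists_subset_card_eq (show D' ≤ S'.card by omega)
      let g : Fin D' → ℕ := fun l => S''.orderEmbOfFin hS''card l
      have hgm : ∀ l, g l ∈ S'' := fun l => Finset.orderEmbOfFin_mem S'' hS''card l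
      have hgi : Function.Injective g := (S''.orderEmbOfFin hS''card).injective
      exact hE D' H t hHt' g (hP D' g (fun l => hM' _ (hS''sub (hgm l))) hgi
          fun l l' => hres _ (hS''sub (hgm l)) _ (hS''sub (hgm l')))
        (fun l => (hS _ (hS' (hS''sub (hgm l)))).1) hpos V rfl
        (fun l => (hS _ (hS' (hS''sub (hgm l)))).2)
  have h1 : (S.filter fun g => g < M).card ≤ M := by
    have : (S.filter fun g => g < M) ⊆ Finset.range M := by
      intro g hg
      exact Finset.mem_range.2 (Finset.mem_filter.1 hg).2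
    simpa using Finset.card_le_card this
  have h2 : (S.filter fun g => ¬ g < M).card ≤ D * ((S.filter fun g => ¬ g < M).image fun g => g % M).card := by
    refine Finset.card_le_mul_card_image _ D fun i hi => ?_
    refine key _ ((Finset.filter_subset _ _).trans (Finset.filter_subset _ _)) ?_ ?_
    · intro g hg
      have := (Finset.mem_filter.1 (Finset.mem_filter.1 hg).1).2
      omega
    · intro g hg g' hg'
      rw [(Finset.mem_filter.1 hg).2, (Finset.mem_filter.1 hg').2]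
  have h3 : ((S.filter fun g => ¬ g < M).image fun g => g % M).card ≤ M := by
    have : ((S.filter fun g => ¬ g < M).image fun g => g % M) ⊆ Finset.range M := by
      intro i hi
      obtain ⟨g, -, rfl⟩ := Finset.mem_image.1 hi
      exact Finset.mem_range.2 (Nat.mod_lt _ hM)
    simpa using Finset.card_le_card this
  have h4 := Finset.card_filter_add_card_filter_not (s := S) (fun g => g < M)
  have h5 : D * ((S.filter fun g => ¬ g < M).image fun g => g % M).card ≤ D * M := Nat.mul_le_mul_left _ h3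
  calc S.card = (S.filter fun g => g < M).card + (S.filter fun g => ¬ g < M).card := h4.symm
    _ ≤ M + D * M := by omega
    _ = M * (D + 1) := by ring

end

end Pool.Agent.Y119.ML
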